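import Mathlib

/-!
# Near relations between `1`, `θ` and `t`: the two-vector inequality

`θ` is a real number which is not too well approximable (`Msr θ`), `t` is any real number.
-/

set_option autoImplicit false

namespace Pool.Agent.D0H49.LI

/-- `θ` has the irrationality exponent of almost all numbers: linear forms in `1, θ` are not small. -/
def Msr (θ : ℝ) : Prop :=
  ∀ η : ℝ, 0 < η → ∃ c : ℝ, 0 < c ∧ ∀ a b : ℤ, ¬ (a = 0 ∧ b = 0) → ∀ H : ℝ, 1 ≤ H →
    |(a : ℝ)| ≤ H → |(b : ℝ)| ≤ H → c ≤ H ^ (1 + η) * |a + b * θ|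

/-- The linear form. -/
def lf (θ t : ℝ) (a b c : ℤ) : ℝ := a + b * θ + c * t

/-- two integer vectors are proportional -/
def Prop3 (a b c a' b' c' : ℤ) : Prop :=
  a * b' = a' * b ∧ a * c' = a' * c ∧ b * c' = b' * c

/-- the height of a vector -/
noncomputable def ht (a b c : ℤ) : ℝ := max |(a : ℝ)| (max |(b : ℝ)| |(c : ℝ)|)

lemma le_ht_a (a b c : ℤ) : |(a : ℝ)| ≤ ht a b c := le_max_left _ _
lemma le_ht_b (a b c : ℤ) : |(b : ℝ)| ≤ ht a b c := (le_max_left _ _).trans (le_max_right _ _)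
lemma le_ht_c (a b c : ℤ) : |(c : ℝ)| ≤ ht a b c := (le_max_right _ _).trans (le_max_right _ _)

lemma ht_nonneg (a b c : ℤ) : 0 ≤ ht a b c := (abs_nonneg _).trans (le_ht_a a b c)

lemma one_le_abs {a : ℤ} (h : a ≠ 0) : (1 : ℝ) ≤ |(a : ℝ)| := by
  have := Int.one_le_abs h
  exact_mod_cast this

lemma one_le_ht {a b c : ℤ} (h : ¬ (a = 0 ∧ b = 0 ∧ c = 0)) : 1 ≤ ht a b c := by
  by_cases ha : a = 0
  · by_cases hb : b = 0
    · have hc : c ≠ 0 := fun hc => h ⟨ha, hb, hc⟩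
      exact (one_le_abs hc).trans (le_ht_c a b c)
    · exact (one_le_abs hb).trans (le_ht_b a b c)
  · exact (one_le_abs ha).trans (le_ht_a a b c)

/-- **The two-vector inequality.** -/
theorem two_vec {θ : ℝ} (hθ : Msr θ) (t : ℝ) (η : ℝ) (hη : 0 < η) :
    ∃ κ : ℝ, 0 < κ ∧ ∀ a b c a' b' c' : ℤ, ¬ Prop3 a b c a' b' c' →
      κ * (ht a b c * ht a' b' c') ^ (-(1 + η)) ≤
        ht a' b' c' * |lf θ t a b c| + ht a b c * |lf θ t a' b' c'| := by
  obtain ⟨c₀, hc₀, h⟩ := hθ η hη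
  refine ⟨c₀ * 2 ^ (-(1 + η)), by positivity, fun a b c a' b' c' hn => ?_⟩
  set X := ht a b c with hX
  set X' := ht a' b' c' with hX'
  have hne : ¬ (a = 0 ∧ b = 0 ∧ c = 0) := by
    rintro ⟨rfl, rfl, rfl⟩
    exact hn ⟨by ring, by ring, by ring⟩
  have hne' : ¬ (a' = 0 ∧ b' = 0 ∧ c' = 0) := by
    rintro ⟨rfl, rfl, rfl⟩
    exact hn ⟨by ring, by ring, by ring⟩
  have h1 : 1 ≤ X := one_le_ht hne
  have h1' : 1 ≤ X' := one_le_ht hne'
  have hXX : 1 ≤ X * X' := one_le_mul_of_one_le_of_one_le h1 h1'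
  have hpos : 0 < X * X' := by linarith
  -- a general conclusion
  have key : ∀ u v : ℤ, ¬ (u = 0 ∧ v = 0) → |(u : ℝ)| ≤ 2 * (X * X') → |(v : ℝ)| ≤ 2 * (X * X') →
      c₀ * 2 ^ (-(1 + η)) * (X * X') ^ (-(1 + η)) ≤ |(u : ℝ) + v * θ| := by
    intro u v huv hu hv
    have h2 := h u v huv (2 * (X * X')) (by linarith) hu hv
    have h3 : (2 * (X * X')) ^ (1 + η) * (2 * (X * X')) ^ (-(1 + η)) = 1 := by
      rw [← Real.rpow_add (by linarith)]; simp
    have h4 : (0 : ℝ) < (2 * (X * X')) ^ (-(1 + η)) := by positivity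
    have h5 : c₀ * 2 ^ (-(1 + η)) * (X * X') ^ (-(1 + η)) = c₀ * (2 * (X * X')) ^ (-(1 + η)) := by
      rw [Real.mul_rpow (by norm_num) hpos.le]; ring
    rw [h5]
    calc c₀ * (2 * (X * X')) ^ (-(1 + η))
        ≤ ((2 * (X * X')) ^ (1 + η) * |(u : ℝ) + v * θ|) * (2 * (X * X')) ^ (-(1 + η)) := by
          gcongr
      _ = ((2 * (X * X')) ^ (1 + η) * (2 * (X * X')) ^ (-(1 + η))) * |(u : ℝ) + v * θ| := by ring
      _ = |(u : ℝ) + v * θ| := by rw [h3, one_mul]
  have ha := le_ht_a a b c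
  have hb := le_ht_b a b c
  have hc := le_ht_c a b c
  have ha' := le_ht_a a' b' c'
  have hb' := le_ht_b a' b' c'
  have hc' := le_ht_c a' b' c'
  rw [← hX] at ha hb hc
  rw [← hX'] at ha' hb' hc'
  have hprod : ∀ {p q r s : ℝ}, |p| ≤ X → |q| ≤ X' → |r| ≤ X' → |s| ≤ X → |r * p - s * q| ≤ 2 * (X * X') := by
    intro p q r s hp hq hr hs
    have e1 : |r * p - s * q| ≤ |r * p| + |s * q| := abs_sub _ _
    rw [abs_mul, abs_mul] at e1
    have e2 : |r| * |p| ≤ X' * X := mul_le_mul hr hp (abs_nonneg _) (by linarith)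
    have e3 : |s| * |q| ≤ X * X' := mul_le_mul hs hq (abs_nonneg _) (by linarith)
    linarith
  by_cases h0 : c' * a - c * a' = 0 ∧ c' * b - c * b' = 0
  · -- then `c = c' = 0`
    obtain ⟨h01, h02⟩ := h0
    have hab : a * b' - a' * b ≠ 0 := by
      intro h3
      exact hn ⟨by linarith, by linarith, by linarith⟩
    have hcc : c = 0 := by
      by_contra hc0
      have h3 : c * (a * b' - a' * b) = 0 := by
        have : c * (a * b' - a' * b) = b * (c' * a - c * a') - a * (c' * b - c * b') := by ring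
        rw [this, h01, h02]; ring
      rcases mul_eq_zero.1 h3 with h4 | h4
      · exact hc0 h4
      · exact hab h4
    have hcc' : c' = 0 := by
      by_contra hc0
      have h3 : c' * (a * b' - a' * b) = 0 := by
        have : c' * (a * b' - a' * b) = b' * (c' * a - c * a') - a' * (c' * b - c * b') := by ring
        rw [this, h01, h02]; ring
      rcases mul_eq_zero.1 h3 with h4 | h4
      · exact hc0 h4
      · exact hab h4
    have hab0 : ¬ (a = 0 ∧ b = 0) := by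
      rintro ⟨h3, h4⟩
      apply hab; rw [h3, h4]; ring
    have h5 := key a b hab0 (by nlinarith) (by nlinarith)
    have h6 : lf θ t a b c = a + b * θ := by
      unfold lf; rw [hcc]; push_cast; ring
    rw [h6]
    have h7 : |(a : ℝ) + b * θ| ≤ X' * |(a : ℝ) + b * θ| := le_mul_of_one_le_left (abs_nonneg _) h1'
    have h8 : 0 ≤ X * |lf θ t a' b' c'| := by positivity
    linarith
  · have h5 := key (c' * a - c * a') (c' * b - c * b') h0
      (by push_cast; exact hprod ha ha' hc' hc)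
      (by push_cast; exact hprod hb hb' hc' hc)
    refine h5.trans ?_
    have e1 : ((c' * a - c * a' : ℤ) : ℝ) + ((c' * b - c * b' : ℤ) : ℝ) * θ =
        c' * lf θ t a b c - c * lf θ t a' b' c' := by
      unfold lf; push_cast; ring
    rw [e1]
    calc |(c' : ℝ) * lf θ t a b c - c * lf θ t a' b' c'|
        ≤ |(c' : ℝ) * lf θ t a b c| + |(c : ℝ) * lf θ t a' b' c'| := abs_sub _ _
      _ = |(c' : ℝ)| * |lf θ t a b c| + |(c : ℝ)| * |lf θ t a' b' c'| := by rw [abs_mul, abs_mul]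
      _ ≤ X' * |lf θ t a b c| + X * |lf θ t a' b' c'| := by gcongr

end Pool.Agent.D0H49.LI
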