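import Pool.Agent.D0H49.LI.Base

/-!
# Near relations are sparse
-/

set_option autoImplicit false

namespace Pool.Agent.D0H49.LI

open Real

/-- growth of the heights of near relations -/
theorem growth {θ : ℝ} (hθ : Msr θ) (t : ℝ) {w ρ : ℝ} (hρ : 1 < ρ) (hw : ρ < (w - 1) / 2) :
    ∃ X₁ : ℝ, 1 ≤ X₁ ∧ ∀ a b c a' b' c' : ℤ, ¬ Prop3 a b c a' b' c' →
      |lf θ t a b c| ≤ ht a b c ^ (-w) → |lf θ t a' b' c'| ≤ ht a' b' c' ^ (-w) →
      X₁ ≤ ht a b c → ht a b c ≤ ht a' b' c' → ht a b c ^ ρ ≤ ht a' b' c' := by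
  -- choose `η`
  obtain ⟨η, hη0, hη⟩ : ∃ η : ℝ, 0 < η ∧ ρ * (2 + η) + η < w - 1 - η := by
    refine ⟨(w - 1 - 2 * ρ) / (2 * (ρ + 2)), by
      apply div_pos <;> linarith, ?_⟩
    have h1 : 0 < ρ + 2 := by linarith
    have h2 : (ρ + 2) * ((w - 1 - 2 * ρ) / (2 * (ρ + 2))) = (w - 1 - 2 * ρ) / 2 := by
      field_simp
    nlinarith
  obtain ⟨κ, hκ, h⟩ := two_vec hθ t η hη0
  -- the threshold
  refine ⟨max 1 ((2 / κ) ^ (1 / η)), le_max_left _ _, fun a b c a' b' c' hn h1 h2 hX hXX' => ?_⟩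
  set X := ht a b c with hXdef
  set X' := ht a' b' c' with hX'def
  have hX1 : 1 ≤ X := (le_max_left _ _).trans hX
  have hX0 : 0 < X := by linarith
  have hX'1 : 1 ≤ X' := hX1.trans hXX'
  have hX'0 : 0 < X' := by linarith
  have hw0 : 0 < w := by nlinarith
  have hk := h a b c a' b' c' hn
  rw [← hXdef, ← hX'def] at hk
  -- the right side
  have e1 : X' * |lf θ t a b c| + X * |lf θ t a' b' c'| ≤ 2 * (X' * X ^ (-w)) := by
    have i1 : X' * |lf θ t a b c| ≤ X' * X ^ (-w) := by gcongr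
    have i2 : X * |lf θ t a' b' c'| ≤ X' * X ^ (-w) := by
      have i3 : X' ^ (-w) ≤ X ^ (-w) := Real.rpow_le_rpow_of_nonpos hX0 hXX' (by linarith)
      calc X * |lf θ t a' b' c'| ≤ X' * X' ^ (-w) := by gcongr
        _ ≤ X' * X ^ (-w) := by gcongr
    linarith
  have e2 : κ * (X * X') ^ (-(1 + η)) ≤ 2 * (X' * X ^ (-w)) := hk.trans e1
  -- `κ X ^ (w - 1 - η) ≤ 2 X' ^ (2 + η)`
  have e3 : κ * X ^ (w - 1 - η) ≤ 2 * X' ^ (2 + η) := by
    have i1 : (X * X') ^ (-(1 + η)) * (X ^ w * X' ^ (1 + η)) = X ^ (w - 1 - η) := by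
      rw [Real.mul_rpow hX0.le hX'0.le]
      have j1 : X' ^ (-(1 + η)) * X' ^ (1 + η) = 1 := by
        rw [← Real.rpow_add hX'0]; simp
      have j2 : X ^ (-(1 + η)) * X ^ w = X ^ (w - 1 - η) := by
        rw [← Real.rpow_add hX0]; congr 1; ring
      calc X ^ (-(1 + η)) * X' ^ (-(1 + η)) * (X ^ w * X' ^ (1 + η))
          = (X ^ (-(1 + η)) * X ^ w) * (X' ^ (-(1 + η)) * X' ^ (1 + η)) := by ring
        _ = _ := by rw [j1, j2, mul_one]
    have i2 : (X' * X ^ (-w)) * (X ^ w * X' ^ (1 + η)) = X' ^ (2 + η) := by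
      have j1 : X ^ (-w) * X ^ w = 1 := by
        rw [← Real.rpow_add hX0]; simp
      have j2 : X' * X' ^ (1 + η) = X' ^ (2 + η) := by
        rw [show (2 : ℝ) + η = 1 + (1 + η) by ring, Real.rpow_add hX'0 1 (1 + η), Real.rpow_one]
      calc (X' * X ^ (-w)) * (X ^ w * X' ^ (1 + η)) = (X ^ (-w) * X ^ w) * (X' * X' ^ (1 + η)) := by
            ring
        _ = _ := by rw [j1, j2, one_mul]
    have i3 : (0 : ℝ) < X ^ w * X' ^ (1 + η) := by positivity
    have i4 := mul_le_mul_of_nonneg_right e2 i3.le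
    rw [mul_assoc κ, i1, mul_assoc 2, i2] at i4
    exact i4
  -- conclusion
  by_contra hcon
  push Not at hcon
  have e4 : X' ^ (2 + η) < X ^ (ρ * (2 + η)) := by
    rw [Real.rpow_mul hX0.le]
    exact Real.rpow_lt_rpow hX'0.le hcon (by linarith)
  have e5 : X ^ (ρ * (2 + η)) * X ^ η ≤ X ^ (w - 1 - η) := by
    rw [← Real.rpow_add hX0]
    exact Real.rpow_le_rpow_of_exponent_le hX1 hη.le
  have e6 : 2 / κ ≤ X ^ η := by
    have i1 : (2 / κ) ^ (1 / η) ≤ X := (le_max_right _ _).trans hX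
    have i2 : ((2 / κ) ^ (1 / η)) ^ η ≤ X ^ η :=
      Real.rpow_le_rpow (by positivity) i1 hη0.le
    rwa [← Real.rpow_mul (by positivity), one_div_mul_cancel hη0.ne', Real.rpow_one] at i2
  have e7 : 2 ≤ κ * X ^ η := by
    rw [div_le_iff₀ hκ] at e6; linarith
  have e8 : 2 * X ^ (ρ * (2 + η)) ≤ κ * X ^ (w - 1 - η) := by
    have i1 : 0 ≤ X ^ (ρ * (2 + η)) := by positivity
    calc 2 * X ^ (ρ * (2 + η)) ≤ (κ * X ^ η) * X ^ (ρ * (2 + η)) := by gcongr
      _ = κ * (X ^ (ρ * (2 + η)) * X ^ η) := by ring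
      _ ≤ κ * X ^ (w - 1 - η) := by gcongr
  linarith

/-- primitive vectors with positive last coordinate and their near relations -/
def Near (θ t w : ℝ) (Y : ℝ) : Set (ℤ × ℤ × ℤ) :=
  {x | 0 < x.2.2 ∧ (∀ d : ℤ, d ∣ x.1 → d ∣ x.2.1 → d ∣ x.2.2 → IsUnit d) ∧
    |lf θ t x.1 x.2.1 x.2.2| ≤ ht x.1 x.2.1 x.2.2 ^ (-w) ∧ ht x.1 x.2.1 x.2.2 ≤ Y}

lemma Near_finite (θ t w Y : ℝ) : (Near θ t w Y).Finite := by
  have h : (Set.Icc (-⌈Y⌉) ⌈Y⌉ ×ˢ (Set.Icc (-⌈Y⌉) ⌈Y⌉ ×ˢ Set.Icc (-⌈Y⌉) ⌈Y⌉) :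
      Set (ℤ × ℤ × ℤ)).Finite :=
    (Set.finite_Icc _ _).prod ((Set.finite_Icc _ _).prod (Set.finite_Icc _ _))
  refine h.subset ?_
  rintro ⟨a, b, c⟩ ⟨-, -, -, h4⟩
  have key : ∀ z : ℤ, |(z : ℝ)| ≤ Y → z ∈ Set.Icc (-⌈Y⌉) ⌈Y⌉ := by
    intro z hz
    have h1 := abs_le.1 hz
    have h2 := Int.le_ceil Y
    constructor
    · have : -((⌈Y⌉ : ℤ) : ℝ) ≤ z := by linarith
      exact_mod_cast this
    · have : (z : ℝ) ≤ ((⌈Y⌉ : ℤ) : ℝ) := by linarith
      exact_mod_cast this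
  exact ⟨key a ((le_ht_a a b c).trans h4), key b ((le_ht_b a b c).trans h4),
    key c ((le_ht_c a b c).trans h4)⟩

/-- proportional primitive vectors with positive last coordinates are equal -/
lemma eq_of_prop3 {a b c a' b' c' : ℤ} (h : Prop3 a b c a' b' c') (hc : 0 < c) (hc' : 0 < c')
    (hp : ∀ d : ℤ, d ∣ a → d ∣ b → d ∣ c → IsUnit d)
    (hp' : ∀ d : ℤ, d ∣ a' → d ∣ b' → d ∣ c' → IsUnit d) : a = a' ∧ b = b' ∧ c = c' := by
  obtain ⟨-, h2, h3⟩ := h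
  -- `c' (a, b, c) = c (a', b', c')`
  obtain ⟨g, hg⟩ : ∃ g : ℤ, g = Int.gcd c c' := ⟨_, rfl⟩
  have hcc : Int.gcd c c' ≠ 0 := by
    intro h0
    rw [Int.gcd_eq_zero_iff] at h0
    omega
  have hg0 : 0 < g := by rw [hg]; exact_mod_cast Nat.pos_of_ne_zero hcc
  obtain ⟨u, hu⟩ : g ∣ c := hg ▸ Int.gcd_dvd_left ..
  obtain ⟨u', hu'⟩ : g ∣ c' := hg ▸ Int.gcd_dvd_right ..
  have hcop : IsCoprime u u' := by
    have h5 := Int.gcd_eq_gcd_ab c c'
    rw [← hg] at h5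
    refine ⟨Int.gcdA c c', Int.gcdB c c', ?_⟩
    have h6 : g * (Int.gcdA c c' * u + Int.gcdB c c' * u') = g * 1 := by
      rw [mul_one]
      conv_rhs => rw [h5]
      rw [hu, hu']
      rw [← hu, ← hu']
      rw [mul_add, show g * (c.gcdA c' * u) = (g * u) * c.gcdA c' by ring,
        show g * (c.gcdB c' * u') = (g * u') * c.gcdB c' by ring, ← hu, ← hu']
    exact mul_left_cancel₀ hg0.ne' h6
  have hu0 : 0 < u := by
    by_contra hh; push Not at hh
    nlinarith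
  have hu'0 : 0 < u' := by
    by_contra hh; push Not at hh
    nlinarith
  -- `a u' = a' u`
  have e1 : a * u' = a' * u := by
    apply mul_left_cancel₀ hg0.ne'
    calc g * (a * u') = a * (g * u') := by ring
      _ = a * c' := by rw [hu']
      _ = a' * c := h2
      _ = a' * (g * u) := by rw [← hu]
      _ = g * (a' * u) := by ring
  have e2 : b * u' = b' * u := by
    apply mul_left_cancel₀ hg0.ne'
    calc g * (b * u') = b * (g * u') := by ring
      _ = b * c' := by rw [hu']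
      _ = b' * c := h3
      _ = b' * (g * u) := by rw [← hu]
      _ = g * (b' * u) := by ring
  have hunit : IsUnit u := hp u (hcop.dvd_of_dvd_mul_right ⟨a', by rw [e1]; ring⟩)
    (hcop.dvd_of_dvd_mul_right ⟨b', by rw [e2]; ring⟩) ⟨g, by rw [hu]; ring⟩
  have hunit' : IsUnit u' := hp' u' (hcop.symm.dvd_of_dvd_mul_right ⟨a, by rw [← e1]; ring⟩)
    (hcop.symm.dvd_of_dvd_mul_right ⟨b, by rw [← e2]; ring⟩) ⟨g, by rw [hu']; ring⟩
  have i1 : u = 1 := by
    rcases Int.isUnit_iff.1 hunit with h | h <;> omega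
  have i2 : u' = 1 := by
    rcases Int.isUnit_iff.1 hunit' with h | h <;> omega
  rw [i1, i2] at e1 e2
  rw [i1] at hu
  rw [i2] at hu'
  refine ⟨by omega, by omega, by omega⟩

/-- **Near relations are sparse.** -/
theorem near_card {θ : ℝ} (hθ : Msr θ) (t : ℝ) {w ρ : ℝ} (hρ : 1 < ρ) (hw : ρ < (w - 1) / 2) :
    ∃ C : ℝ, ∀ Y : ℝ, 3 ≤ Y → ((Near θ t w Y).ncard : ℝ) ≤ log (log Y) / log ρ + C := by
  obtain ⟨X₁, hX₁, hg⟩ := growth hθ t hρ hw
  set X₂ := max X₁ 3 with hX₂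
  have hlρ : 0 < log ρ := Real.log_pos hρ
  have hl3 : 1 < log 3 := by
    rw [Real.lt_log_iff_exp_lt (by norm_num)]
    exact Real.exp_one_lt_three
  refine ⟨(Near θ t w X₂).ncard + 2, fun Y hY => ?_⟩
  have hfin := Near_finite θ t w Y
  have hlY : 1 < log Y := hl3.trans_le (Real.log_le_log (by norm_num) hY)
  have hllY : 0 ≤ log (log Y) := Real.log_nonneg hlY.le
  set B := {x ∈ Near θ t w Y | X₂ < ht x.1 x.2.1 x.2.2} with hB
  have hsplit : Near θ t w Y ⊆ Near θ t w X₂ ∪ B := by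
    intro x hx
    by_cases h : ht x.1 x.2.1 x.2.2 ≤ X₂
    · left
      exact ⟨hx.1, hx.2.1, hx.2.2.1, h⟩
    · right
      push Not at h
      exact ⟨hx, h⟩
  have hBfin : B.Finite := hfin.subset (fun x hx => hx.1)
  have hBcard : (B.ncard : ℝ) ≤ log (log Y) / log ρ + 1 := by
    -- the map
    set f : ℤ × ℤ × ℤ → ℕ := fun x => ⌊log (log (ht x.1 x.2.1 x.2.2)) / log ρ⌋₊ with hf
    have hll : ∀ x ∈ B, 0 ≤ log (log (ht x.1 x.2.1 x.2.2)) := by
      intro x hx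
      apply Real.log_nonneg
      have : (3 : ℝ) ≤ ht x.1 x.2.1 x.2.2 := (le_max_right _ _).trans hx.2.le
      exact (hl3.trans_le (Real.log_le_log (by norm_num) this)).le
    have hmaps : ∀ x ∈ B, f x ∈ Set.Iic ⌊log (log Y) / log ρ⌋₊ := by
      intro x hx
      apply Nat.floor_le_floor
      have h3 : (3 : ℝ) ≤ ht x.1 x.2.1 x.2.2 := (le_max_right _ _).trans hx.2.le
      have h4 : 1 < log (ht x.1 x.2.1 x.2.2) := hl3.trans_le (Real.log_le_log (by norm_num) h3)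
      have h5 : ht x.1 x.2.1 x.2.2 ≤ Y := hx.1.2.2.2
      have h6 : log (ht x.1 x.2.1 x.2.2) ≤ log Y := Real.log_le_log (by linarith) h5
      have h7 : log (log (ht x.1 x.2.1 x.2.2)) ≤ log (log Y) := Real.log_le_log (by linarith) h6
      gcongr
    have hmain : ∀ x ∈ B, ∀ y ∈ B, ht x.1 x.2.1 x.2.2 ≤ ht y.1 y.2.1 y.2.2 → x ≠ y → f x < f y := by
      intro x hx y hy hxy hne
      have hn : ¬ Prop3 x.1 x.2.1 x.2.2 y.1 y.2.1 y.2.2 := by
        intro h
        obtain ⟨h1, h2, h3⟩ := eq_of_prop3 h hx.1.1 hy.1.1 hx.1.2.1 hy.1.2.1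
        apply hne
        ext
        · exact h1
        · exact h2
        · exact h3
      have h1 := hg _ _ _ _ _ _ hn hx.1.2.2.1 hy.1.2.2.1 ((le_max_left _ _).trans hx.2.le) hxy
      have h3 : (3 : ℝ) ≤ ht x.1 x.2.1 x.2.2 := (le_max_right _ _).trans hx.2.le
      have h4 : 1 < log (ht x.1 x.2.1 x.2.2) := hl3.trans_le (Real.log_le_log (by norm_num) h3)
      have h5 : ρ * log (ht x.1 x.2.1 x.2.2) ≤ log (ht y.1 y.2.1 y.2.2) := by
        rw [← Real.log_rpow (by linarith)]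
        exact Real.log_le_log (by positivity) h1
      have h6 : log ρ + log (log (ht x.1 x.2.1 x.2.2)) ≤ log (log (ht y.1 y.2.1 y.2.2)) := by
        rw [← Real.log_mul (by linarith) (by linarith)]
        exact Real.log_le_log (by positivity) h5
      have h7 : log (log (ht x.1 x.2.1 x.2.2)) / log ρ + 1 ≤
          log (log (ht y.1 y.2.1 y.2.2)) / log ρ := by
        rw [div_add_one hlρ.ne']
        gcongr
        linarith
      have h8 : f x + 1 ≤ f y := by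
        rw [hf]
        simp only
        rw [← Nat.floor_add_one (div_nonneg (hll x hx) hlρ.le)]
        exact Nat.floor_le_floor h7
      omega
    have hinj : Set.InjOn f B := by
      intro x hx y hy hxy
      by_contra hne
      rcases le_total (ht x.1 x.2.1 x.2.2) (ht y.1 y.2.1 y.2.2) with h | h
      · exact absurd hxy (hmain x hx y hy h hne).ne
      · exact absurd hxy (hmain y hy x hx h (Ne.symm hne)).ne'
    have h9 := Set.ncard_le_ncard_of_injOn f hmaps hinj (Set.finite_Iic _)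
    have h10 : (Set.Iic ⌊log (log Y) / log ρ⌋₊).ncard = ⌊log (log Y) / log ρ⌋₊ + 1 := by
      rw [← Finset.coe_Iic, Set.ncard_coe_finset, Nat.card_Iic]
    rw [h10] at h9
    have h11 : (⌊log (log Y) / log ρ⌋₊ : ℝ) ≤ log (log Y) / log ρ :=
      Nat.floor_le (div_nonneg hllY hlρ.le)
    calc (B.ncard : ℝ) ≤ ((⌊log (log Y) / log ρ⌋₊ + 1 : ℕ) : ℝ) := by exact_mod_cast h9
      _ ≤ _ := by push_cast; linarith
  have h12 : (Near θ t w Y).ncard ≤ (Near θ t w X₂).ncard + B.ncard :=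
    (Set.ncard_le_ncard hsplit ((Near_finite θ t w X₂).union hBfin)).trans (Set.ncard_union_le _ _)
  have h13 : ((Near θ t w Y).ncard : ℝ) ≤ (Near θ t w X₂).ncard + B.ncard := by exact_mod_cast h12
  linarith

end Pool.Agent.D0H49.LI
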