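import Pool.Agent.D0H49.LI.Lin
import Pool.Agent.D0H49.LI.Sparse
import Pool.Agent.W472.AC.EMeas2

/-!
# Criteria for linear independence
-/

set_option autoImplicit false

namespace Pool.Agent.D0H49.LI

open Real

/-- `e` satisfies the hypothesis -/
theorem msr_e : Msr (Real.exp 1) := by
  intro η hη
  obtain ⟨c, hc, h⟩ := Pool.Agent.W472.AC.e_measP 1 η hη
  refine ⟨c, hc, fun a b hab H hH ha hb => ?_⟩
  set P : Polynomial ℤ := Polynomial.C a + Polynomial.C b * Polynomial.X with hP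
  have hc : ∀ j, P.coeff j = (if j = 0 then a else 0) + (if j = 1 then b else 0) := by
    intro j
    rw [hP, Polynomial.coeff_add, Polynomial.coeff_C, Polynomial.coeff_C_mul, Polynomial.coeff_X]
    congr 1
    by_cases hj : j = 1
    · rw [if_pos hj, if_pos hj.symm, mul_one]
    · rw [if_neg hj, if_neg (fun h => hj h.symm), mul_zero]
  have h1 := h P (by
    intro h0
    apply hab
    have e0 := hc 0
    have e1 := hc 1
    rw [h0, Polynomial.coeff_zero] at e0 e1
    rw [if_pos rfl, if_neg (by norm_num)] at e0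
    rw [if_neg (by norm_num), if_pos rfl] at e1
    constructor <;> omega) (by
    rw [Polynomial.natDegree_le_iff_coeff_eq_zero]
    intro j hj
    rw [hc, if_neg (by omega), if_neg (by omega), add_zero]) H hH (by
    intro j
    rw [hc]
    rcases Nat.lt_or_ge j 2 with hj | hj
    · interval_cases j
      · simpa using ha
      · simpa using hb
    · rw [if_neg (by omega), if_neg (by omega)]
      simp
      linarith)
  have h2 : Polynomial.aeval (Real.exp 1) P = (a : ℝ) + b * Real.exp 1 := by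
    rw [hP]
    simp
  rw [h2] at h1
  push_cast at h1
  exact h1

lemma msr_ne {θ : ℝ} (hθ : Msr θ) {a b : ℤ} (h : (a : ℝ) + b * θ = 0) : a = 0 ∧ b = 0 := by
  by_contra hn
  obtain ⟨c, hc, h1⟩ := hθ 1 one_pos
  have h2 := h1 a b hn (max 1 (max |(a : ℝ)| |(b : ℝ)|)) (le_max_left _ _)
    ((le_max_left _ _).trans (le_max_right _ _)) ((le_max_right _ _).trans (le_max_right _ _))
  rw [h] at h2
  simp at h2
  linarith

/-- the two formulations of linear independence -/
theorem indep_iff (θ t : ℝ) : LinearIndependent ℚ ![(1 : ℝ), θ, t] ↔ Indep θ t := by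
  rw [Fintype.linearIndependent_iff]
  constructor
  · intro h a b c h0
    have h1 := h ![(a : ℚ), (b : ℚ), (c : ℚ)] (by
      rw [Fin.sum_univ_three]
      simp only [Matrix.cons_val_zero, Matrix.cons_val_one, Matrix.cons_val, Rat.smul_def]
      push_cast
      unfold lf at h0
      linarith)
    have h2 := h1 0
    have h3 := h1 1
    have h4 := h1 2
    simp at h2 h3 h4
    exact ⟨h2, h3, h4⟩
  · intro h g hg
    rw [Fin.sum_univ_three] at hg
    simp only [Matrix.cons_val_zero, Matrix.cons_val_one, Matrix.cons_val, Rat.smul_def] at hg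
    -- clear denominators
    set D : ℤ := (g 0).den * (g 1).den * (g 2).den with hD
    have hD0 : (D : ℚ) ≠ 0 := by
      rw [hD]
      push_cast
      have := (g 0).den_ne_zero
      have := (g 1).den_ne_zero
      have := (g 2).den_ne_zero
      positivity
    have e0 : (((g 0).num * (g 1).den * (g 2).den : ℤ) : ℚ) = D * g 0 := by
      rw [hD]; push_cast
      have := Rat.mul_den_eq_num (g 0)
      calc ((g 0).num : ℚ) * (g 1).den * (g 2).den = (g 0 * (g 0).den) * (g 1).den * (g 2).den := by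
            rw [this]
        _ = _ := by ring
    have e1 : (((g 0).den * (g 1).num * (g 2).den : ℤ) : ℚ) = D * g 1 := by
      rw [hD]; push_cast
      have := Rat.mul_den_eq_num (g 1)
      calc ((g 0).den : ℚ) * (g 1).num * (g 2).den = (g 0).den * (g 1 * (g 1).den) * (g 2).den := by
            rw [this]
        _ = _ := by ring
    have e2 : (((g 0).den * (g 1).den * (g 2).num : ℤ) : ℚ) = D * g 2 := by
      rw [hD]; push_cast
      have := Rat.mul_den_eq_num (g 2)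
      calc ((g 0).den : ℚ) * (g 1).den * (g 2).num = (g 0).den * (g 1).den * (g 2 * (g 2).den) := by
            rw [this]
        _ = _ := by ring
    have r0 : (((g 0).num * (g 1).den * (g 2).den : ℤ) : ℝ) = D * (g 0 : ℝ) := by exact_mod_cast e0
    have r1 : (((g 0).den * (g 1).num * (g 2).den : ℤ) : ℝ) = D * (g 1 : ℝ) := by exact_mod_cast e1
    have r2 : (((g 0).den * (g 1).den * (g 2).num : ℤ) : ℝ) = D * (g 2 : ℝ) := by exact_mod_cast e2
    obtain ⟨a0, a1, a2⟩ := h _ _ _ (show lf θ t ((g 0).num * (g 1).den * (g 2).den)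
        ((g 0).den * (g 1).num * (g 2).den) ((g 0).den * (g 1).den * (g 2).num) = 0 by
      unfold lf
      rw [r0, r1, r2]
      linear_combination (D : ℝ) * hg)
    rw [a0] at e0
    rw [a1] at e1
    rw [a2] at e2
    push_cast at e0 e1 e2
    intro i
    fin_cases i
    · rcases mul_eq_zero.1 e0.symm with h5 | h5
      · exact absurd h5 hD0
      · exact h5
    · rcases mul_eq_zero.1 e1.symm with h5 | h5
      · exact absurd h5 hD0
      · exact h5
    · rcases mul_eq_zero.1 e2.symm with h5 | h5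
      · exact absurd h5 hD0
      · exact h5

/-- If there is a relation, the simultaneous approximation is as good as for one number. -/
theorem good_of_dep {θ : ℝ} (hθ : Msr θ) (t : ℝ) (hD : ¬ Indep θ t) :
    ∃ C : ℝ, 1 ≤ C ∧ ∀ X : ℝ, 1 ≤ X → ∃ q p r : ℤ, 1 ≤ q ∧ (q : ℝ) ≤ X ∧ er θ t (q, p, r) ≤ C / X := by
  unfold Indep at hD
  push Not at hD
  obtain ⟨a, b, c, h0, hne⟩ := hD
  have hc : c ≠ 0 := by
    intro hc
    have h1 : (a : ℝ) + b * θ = 0 := by
      unfold lf at h0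
      rw [hc] at h0
      push_cast at h0
      linarith
    obtain ⟨h2, h3⟩ := msr_ne hθ h1
    exact hne h2 h3 hc
  have hc1 := one_le_abs hc
  refine ⟨|(c : ℝ)| * (|(c : ℝ)| + |(b : ℝ)|), ?_, fun X hX => ?_⟩
  · have := abs_nonneg (b : ℝ)
    nlinarith
  by_cases hXc : X < |(c : ℝ)|
  · refine ⟨1, round θ, round t, le_rfl, by simpa using hX, ?_⟩
    have e1 : er θ t (1, round θ, round t) ≤ 1 / 2 := by
      unfold er
      simp only [Int.cast_one, one_mul]
      exact max_le (abs_sub_round θ) (abs_sub_round t)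
    refine e1.trans ?_
    rw [le_div_iff₀ (by linarith)]
    have := abs_nonneg (b : ℝ)
    nlinarith
  · push Not at hXc
    set m : ℕ := ⌊X / |(c : ℝ)|⌋₊ with hm
    have hm1 : 1 ≤ m := by
      rw [hm, Nat.one_le_floor_iff, le_div_iff₀ (by linarith)]
      linarith
    obtain ⟨j, k, hk0, hkm, hjk⟩ := Real.exists_int_int_abs_mul_sub_le θ (n := m) (by omega)
    -- the sign
    obtain ⟨s, hs, hs'⟩ : ∃ s : ℤ, s * c = |c| ∧ |(s : ℝ)| = 1 := by
      rcases lt_or_gt_of_ne hc with h | h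
      · exact ⟨-1, by rw [abs_of_neg h]; ring, by simp⟩
      · exact ⟨1, by rw [abs_of_pos h]; ring, by simp⟩
    have hsr : (s : ℝ) * c = |(c : ℝ)| := by
      have : ((s * c : ℤ) : ℝ) = ((|c| : ℤ) : ℝ) := by rw [hs]
      push_cast at this
      exact this
    have hmX : (m : ℝ) ≤ X / |(c : ℝ)| := Nat.floor_le (by positivity)
    have hmX' : X / |(c : ℝ)| < m + 1 := Nat.lt_floor_add_one _
    have hinv : 1 / ((m : ℝ) + 1) ≤ |(c : ℝ)| / X := by
      rw [div_le_div_iff₀ (by positivity) (by linarith)]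
      rw [div_lt_iff₀ (by linarith)] at hmX'
      linarith
    have hkr : (1 : ℝ) ≤ k := by exact_mod_cast hk0
    have hkmr : (k : ℝ) ≤ m := by exact_mod_cast hkm
    refine ⟨|c| * k, |c| * j, -s * (k * a + b * j), ?_, ?_, ?_⟩
    · have h1 : 1 ≤ |c| := Int.one_le_abs hc
      nlinarith
    · push_cast
      have h1 : (k : ℝ) ≤ X / |(c : ℝ)| := hkmr.trans hmX
      rw [le_div_iff₀ (by linarith)] at h1
      linarith
    · unfold er
      simp only
      push_cast
      have e1 : |(c : ℝ)| * k * θ - |(c : ℝ)| * j = |(c : ℝ)| * (k * θ - j) := by ring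
      have h00 : (a : ℝ) + b * θ + c * t = 0 := h0
      have e2 : |(c : ℝ)| * k * t - -(s : ℝ) * (k * a + b * j) = -(s * b * (k * θ - j)) := by
        rw [← hsr]
        linear_combination (s : ℝ) * k * h00
      rw [e1, e2, abs_neg, abs_mul, abs_mul, abs_mul, hs', abs_abs, one_mul]
      have h3 : |(k : ℝ) * θ - j| ≤ |(c : ℝ)| / X := hjk.trans hinv
      have hb := abs_nonneg (b : ℝ)
      have h4 : 0 ≤ |(c : ℝ)| / X := by positivity
      have e3 : |(c : ℝ)| * (|(c : ℝ)| + |(b : ℝ)|) / X = (|(c : ℝ)| + |(b : ℝ)|) * (|(c : ℝ)| / X) := by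
        ring
      rw [e3]
      apply max_le
      · calc |(c : ℝ)| * |(k : ℝ) * θ - j| ≤ |(c : ℝ)| * (|(c : ℝ)| / X) := by gcongr
          _ ≤ _ := by nlinarith
      · calc |(b : ℝ)| * |(k : ℝ) * θ - j| ≤ |(b : ℝ)| * (|(c : ℝ)| / X) := by gcongr
          _ ≤ _ := by nlinarith

/-- **Criterion, simultaneous approximation.** -/
theorem crit_sim {θ : ℝ} (hθ : Msr θ) (t : ℝ) {l : ℝ} (hl : (√5 - 1) / 2 < l) (hl1 : l < 1) :
    Indep θ t ↔ ∀ X₀ : ℝ, ∃ X : ℝ, X₀ ≤ X ∧ ∀ q p r : ℤ, 1 ≤ q → (q : ℝ) ≤ X →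
      X ^ (-l) < er θ t (q, p, r) := by
  have h5 : (√5) ^ 2 = 5 := Real.sq_sqrt (by norm_num)
  have h5' : 2 < √5 := by
    rw [Real.lt_sqrt (by norm_num)]; norm_num
  have hl0 : 0 < l := by linarith
  constructor
  · intro hI X₀
    exact golden hθ t hI hl0 (by nlinarith) X₀
  · intro h
    by_contra hD
    obtain ⟨C, hC, hgood⟩ := good_of_dep hθ t hD
    obtain ⟨X, hX, hno⟩ := h (max 1 (C ^ (1 / (1 - l))))
    have hX1 : 1 ≤ X := (le_max_left _ _).trans hX
    have hX0 : 0 < X := by linarith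
    obtain ⟨q, p, r, h1, h2, h3⟩ := hgood X hX1
    have h4 := hno q p r h1 h2
    have h6 : C ≤ X ^ (1 - l) := by
      have i1 : C ^ (1 / (1 - l)) ≤ X := (le_max_right _ _).trans hX
      have i2 : (C ^ (1 / (1 - l))) ^ (1 - l) ≤ X ^ (1 - l) :=
        Real.rpow_le_rpow (by positivity) i1 (by linarith)
      rwa [← Real.rpow_mul (by linarith), one_div_mul_cancel (by linarith), Real.rpow_one] at i2
    have h7 : C / X ≤ X ^ (-l) := by
      rw [div_le_iff₀ hX0]
      have : X ^ (-l) * X = X ^ (1 - l) := by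
        rw [show (1 : ℝ) - l = -l + 1 by ring, Real.rpow_add hX0, Real.rpow_one]
      rw [this]; exact h6
    linarith

/-- **Criterion, linear forms.** -/
theorem crit_lin {θ : ℝ} (hθ : Msr θ) (t : ℝ) {w : ℝ} (hw : (3 + √5) / 2 < w) :
    Indep θ t ↔ ∀ H₀ : ℝ, ∃ H : ℝ, H₀ ≤ H ∧ ∀ a b c : ℤ, ¬ (a = 0 ∧ b = 0 ∧ c = 0) →
      ht a b c ≤ H → H ^ (-w) < |lf θ t a b c| := by
  have h5 : (√5) ^ 2 = 5 := Real.sq_sqrt (by norm_num)
  have h5' : 2 < √5 := by
    rw [Real.lt_sqrt (by norm_num)]; norm_num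
  constructor
  · intro hI H₀
    obtain ⟨H, hH, h⟩ := golden' hθ t hI (w := w) (by linarith) (by nlinarith) H₀
    exact ⟨H, hH, fun a b c hne hle => h (a, b, c) (ne_zero_iff3.2 hne) hle⟩
  · intro h a b c h0
    by_contra hne
    obtain ⟨H, hH, h1⟩ := h (ht a b c)
    have h2 := h1 a b c hne hH
    rw [h0, abs_zero] at h2
    have h3 : 1 ≤ H := (one_le_ht hne).trans hH
    have h4 : 0 < H ^ (-w) := by positivity
    linarith

/-- Dirichlet's theorem for a linear form in two numbers -/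
lemma dirichlet2 (θ t : ℝ) (n : ℕ) (hn : 1 ≤ n) :
    ∃ a b c : ℤ, ¬ (b = 0 ∧ c = 0) ∧ |(b : ℝ)| ≤ n ∧ |(c : ℝ)| ≤ n ∧ |lf θ t a b c| ≤ 1 / (n : ℝ) ^ 2 := by
  have hn0 : (0 : ℝ) < n := by exact_mod_cast hn
  set S : Finset (ℕ × ℕ) := Finset.range (n + 1) ×ˢ Finset.range (n + 1) with hS
  set T : Finset ℕ := Finset.range (n ^ 2) with hT
  set f : ℕ × ℕ → ℕ := fun x => ⌊Int.fract ((x.1 : ℝ) * θ + x.2 * t) * (n : ℝ) ^ 2⌋₊ with hf
  have hcard : T.card < S.card := by
    rw [hS, hT, Finset.card_product, Finset.card_range, Finset.card_range]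
    nlinarith
  have hmaps : ∀ x ∈ S, f x ∈ T := by
    intro x _
    rw [hT, Finset.mem_range, hf]
    simp only
    rw [Nat.floor_lt (by positivity)]
    push_cast
    have := Int.fract_lt_one ((x.1 : ℝ) * θ + x.2 * t)
    nlinarith [pow_pos hn0 2]
  obtain ⟨x, hx, y, hy, hxy, hfxy⟩ := Finset.exists_ne_map_eq_of_card_lt_of_maps_to hcard hmaps
  rw [hS, Finset.mem_product, Finset.mem_range, Finset.mem_range] at hx hy
  refine ⟨⌊(y.1 : ℝ) * θ + y.2 * t⌋ - ⌊(x.1 : ℝ) * θ + x.2 * t⌋, (x.1 : ℤ) - y.1, (x.2 : ℤ) - y.2,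
    ?_, ?_, ?_, ?_⟩
  · rintro ⟨h1, h2⟩
    apply hxy
    ext
    · omega
    · omega
  · push_cast
    have h1 : (x.1 : ℝ) ≤ n := by exact_mod_cast (by omega : x.1 ≤ n)
    have h2 : (y.1 : ℝ) ≤ n := by exact_mod_cast (by omega : y.1 ≤ n)
    have h3 : (0 : ℝ) ≤ x.1 := Nat.cast_nonneg _
    have h4 : (0 : ℝ) ≤ y.1 := Nat.cast_nonneg _
    rw [abs_le]; constructor <;> linarith
  · push_cast
    have h1 : (x.2 : ℝ) ≤ n := by exact_mod_cast (by omega : x.2 ≤ n)
    have h2 : (y.2 : ℝ) ≤ n := by exact_mod_cast (by omega : y.2 ≤ n)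
    have h3 : (0 : ℝ) ≤ x.2 := Nat.cast_nonneg _
    have h4 : (0 : ℝ) ≤ y.2 := Nat.cast_nonneg _
    rw [abs_le]; constructor <;> linarith
  · have e : lf θ t (⌊(y.1 : ℝ) * θ + y.2 * t⌋ - ⌊(x.1 : ℝ) * θ + x.2 * t⌋) ((x.1 : ℤ) - y.1)
        ((x.2 : ℤ) - y.2) = Int.fract ((x.1 : ℝ) * θ + x.2 * t) - Int.fract ((y.1 : ℝ) * θ + y.2 * t) := by
      unfold lf Int.fract
      push_cast
      ring
    rw [e]
    set u := Int.fract ((x.1 : ℝ) * θ + x.2 * t) with hu
    set v := Int.fract ((y.1 : ℝ) * θ + y.2 * t) with hv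
    have hu0 : 0 ≤ u := Int.fract_nonneg _
    have hv0 : 0 ≤ v := Int.fract_nonneg _
    have hfe : ⌊u * (n : ℝ) ^ 2⌋₊ = ⌊v * (n : ℝ) ^ 2⌋₊ := hfxy
    have g1 := Nat.floor_le (show 0 ≤ u * (n : ℝ) ^ 2 by positivity)
    have g2 := Nat.lt_floor_add_one (u * (n : ℝ) ^ 2)
    have g3 := Nat.floor_le (show 0 ≤ v * (n : ℝ) ^ 2 by positivity)
    have g4 := Nat.lt_floor_add_one (v * (n : ℝ) ^ 2)
    rw [hfe] at g1 g2
    have hn2 : (0 : ℝ) < (n : ℝ) ^ 2 := by positivity
    have e5 : |u - v| * (n : ℝ) ^ 2 = |u * (n : ℝ) ^ 2 - v * (n : ℝ) ^ 2| := by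
      rw [← sub_mul, abs_mul, abs_of_pos hn2]
    rw [le_div_iff₀ hn2, e5, abs_le]
    constructor <;> linarith

/-- **Criterion: infinitely many small nonzero values.** -/
theorem crit_inf {θ : ℝ} (hθ : Msr θ) (t : ℝ) {ε : ℝ} (hε : 0 < ε) (hε1 : ε < 1) :
    Indep θ t ↔ {x : ℤ × ℤ × ℤ | 0 < |lf θ t x.1 x.2.1 x.2.2| ∧
      |lf θ t x.1 x.2.1 x.2.2| ≤ ht x.1 x.2.1 x.2.2 ^ (-(1 + ε))}.Infinite := by
  constructor
  · intro hI hfin
    -- a positive lower bound for the values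
    obtain ⟨δ, hδ, hδl⟩ : ∃ δ : ℝ, 0 < δ ∧ ∀ x ∈ {x : ℤ × ℤ × ℤ | 0 < |lf θ t x.1 x.2.1 x.2.2| ∧
        |lf θ t x.1 x.2.1 x.2.2| ≤ ht x.1 x.2.1 x.2.2 ^ (-(1 + ε))}, δ ≤ |lf θ t x.1 x.2.1 x.2.2| := by
      rcases Set.eq_empty_or_nonempty {x : ℤ × ℤ × ℤ | 0 < |lf θ t x.1 x.2.1 x.2.2| ∧
        |lf θ t x.1 x.2.1 x.2.2| ≤ ht x.1 x.2.1 x.2.2 ^ (-(1 + ε))} with h | h
      · exact ⟨1, one_pos, fun x hx => by rw [h] at hx; exact absurd hx (Set.notMem_empty x)⟩
      · obtain ⟨y, hy, hmin⟩ := Set.exists_min_image _ (fun x : ℤ × ℤ × ℤ => |lf θ t x.1 x.2.1 x.2.2|)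
          hfin h
        exact ⟨_, hy.1, hmin⟩
    -- a large `n`
    set B : ℝ := |θ| + |t| + 1 with hB
    have hB1 : 1 ≤ B := by have := abs_nonneg θ; have := abs_nonneg t; linarith
    have h1 : Filter.Tendsto (fun n : ℕ => (n : ℝ) ^ (-(1 - ε))) Filter.atTop (nhds 0) :=
      (tendsto_rpow_neg_atTop (by linarith)).comp tendsto_natCast_atTop_atTop
    have hBp : 0 < B ^ (-(1 + ε)) := by positivity
    have h2 : Filter.Tendsto (fun n : ℕ => 1 / (n : ℝ)) Filter.atTop (nhds 0) :=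
      tendsto_one_div_atTop_nhds_zero_nat
    obtain ⟨n, ⟨hn1, hn2⟩, hn3⟩ := (((h1.eventually (gt_mem_nhds hBp)).and
      (h2.eventually (gt_mem_nhds hδ))).and (Filter.eventually_ge_atTop 1)).exists
    have hn0 : (0 : ℝ) < n := by exact_mod_cast hn3
    have hn1r : (1 : ℝ) ≤ n := by exact_mod_cast hn3
    obtain ⟨a, b, c, hbc, hb, hc, hL⟩ := dirichlet2 θ t n hn3
    have hne : ¬ (a = 0 ∧ b = 0 ∧ c = 0) := fun h => hbc h.2
    have hpos : 0 < |lf θ t a b c| := abs_pos.2 fun h => hne (hI _ _ _ h)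
    have hn2le : 1 / (n : ℝ) ^ 2 ≤ 1 / n := by
      apply one_div_le_one_div_of_le hn0
      nlinarith
    have hL1 : |lf θ t a b c| ≤ 1 := by
      refine hL.trans (hn2le.trans ?_)
      rw [div_le_one hn0]; exact hn1r
    have hht : ht a b c ≤ B * n := by
      have ha : |(a : ℝ)| ≤ B * n := by
        have e1 : (a : ℝ) = lf θ t a b c - b * θ - c * t := by unfold lf; ring
        have e2 : |(a : ℝ)| ≤ |lf θ t a b c| + |(b : ℝ) * θ| + |(c : ℝ) * t| := by
          rw [e1]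
          have i1 := abs_sub (lf θ t a b c - b * θ) ((c : ℝ) * t)
          have i2 := abs_sub (lf θ t a b c) ((b : ℝ) * θ)
          have i3 : lf θ t (a : ℤ) b c = lf θ t a b c := rfl
          calc |lf θ t a b c - ↑b * θ - ↑c * t| ≤ _ := i1
            _ ≤ _ := by linarith
        have e3 : |(b : ℝ) * θ| ≤ n * |θ| := by rw [abs_mul]; gcongr
        have e4 : |(c : ℝ) * t| ≤ n * |t| := by rw [abs_mul]; gcongr
        rw [hB]
        nlinarith
      unfold ht
      refine max_le ha (max_le (hb.trans ?_) (hc.trans ?_)) <;> nlinarith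
    have hmem : (a, b, c) ∈ {x : ℤ × ℤ × ℤ | 0 < |lf θ t x.1 x.2.1 x.2.2| ∧
        |lf θ t x.1 x.2.1 x.2.2| ≤ ht x.1 x.2.1 x.2.2 ^ (-(1 + ε))} := by
      refine ⟨hpos, hL.trans ?_⟩
      have i1 : (B * n) ^ (-(1 + ε)) ≤ ht a b c ^ (-(1 + ε)) :=
        Real.rpow_le_rpow_of_nonpos (by have := one_le_ht hne; linarith) hht (by linarith)
      refine le_trans ?_ i1
      rw [Real.mul_rpow (by linarith) hn0.le]
      have i2 : (n : ℝ) ^ (-(1 - ε)) * (n : ℝ) ^ (-(1 + ε)) = 1 / (n : ℝ) ^ 2 := by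
        rw [← Real.rpow_add hn0, show -(1 - ε) + -(1 + ε) = (-2 : ℝ) by ring, Real.rpow_neg hn0.le]
        norm_num
      rw [← i2]
      have i3 : 0 ≤ (n : ℝ) ^ (-(1 + ε)) := by positivity
      exact mul_le_mul_of_nonneg_right hn1.le i3
    have h3 := hδl _ hmem
    simp only at h3
    linarith
  · intro hinf
    by_contra hD
    apply hinf
    unfold Indep at hD
    push Not at hD
    obtain ⟨a, b, c, h0, hne⟩ := hD
    have hne' : ¬ (a = 0 ∧ b = 0 ∧ c = 0) := fun h => hne h.1 h.2.1 h.2.2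
    have hc : c ≠ 0 := by
      intro hc
      have h1 : (a : ℝ) + b * θ = 0 := by
        unfold lf at h0
        rw [hc] at h0
        push_cast at h0
        linarith
      obtain ⟨h2, h3⟩ := msr_ne hθ h1
      exact hne h2 h3 hc
    obtain ⟨κ, hκ, h⟩ := hθ (ε / 2) (by linarith)
    set K := 2 * ht a b c with hK
    have hK1 : 1 ≤ K := by have := one_le_ht hne'; linarith
    -- the heights are bounded
    set M := (K ^ (1 + ε / 2) * |(c : ℝ)| / κ) ^ (2 / ε) with hM
    have hbound : {x : ℤ × ℤ × ℤ | 0 < |lf θ t x.1 x.2.1 x.2.2| ∧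
        |lf θ t x.1 x.2.1 x.2.2| ≤ ht x.1 x.2.1 x.2.2 ^ (-(1 + ε))} ⊆
        {x | ht x.1 x.2.1 x.2.2 ≤ M} := by
      rintro ⟨a', b', c'⟩ ⟨h1, h2⟩
      simp only at h1 h2
      show ht a' b' c' ≤ M
      have hne2 : ¬ (a' = 0 ∧ b' = 0 ∧ c' = 0) := by
        rintro ⟨rfl, rfl, rfl⟩
        unfold lf at h1
        simp at h1
      set X := ht a' b' c' with hX
      have hX1 : 1 ≤ X := one_le_ht hne2
      have hX0 : 0 < X := by linarith
      have e0 : ((c * a' - c' * a : ℤ) : ℝ) + ((c * b' - c' * b : ℤ) : ℝ) * θ =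
          c * lf θ t a' b' c' := by
        have h00 : (a : ℝ) + b * θ + c * t = 0 := h0
        unfold lf
        push_cast
        linear_combination (-(c' : ℝ)) * h00
      have hne3 : ¬ (c * a' - c' * a = 0 ∧ c * b' - c' * b = 0) := by
        rintro ⟨h3, h4⟩
        rw [h3, h4] at e0
        simp at e0
        rcases e0 with h5 | h5
        · exact hc (by exact_mod_cast h5)
        · rw [h5] at h1; simp at h1
      have hpb : ∀ {p q r s : ℝ}, |p| ≤ ht a b c → |q| ≤ X → |r| ≤ X → |s| ≤ ht a b c →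
          |p * q - r * s| ≤ K * X := by
        intro p q r s h3 h4 h5 h6
        have i1 := abs_sub (p * q) (r * s)
        have i2 : |p * q| ≤ ht a b c * X := by
          rw [abs_mul]; exact mul_le_mul h3 h4 (abs_nonneg _) (ht_nonneg _ _ _)
        have i3 : |r * s| ≤ X * ht a b c := by
          rw [abs_mul]; exact mul_le_mul h5 h6 (abs_nonneg _) hX0.le
        rw [hK]; linarith
      have h6 := h _ _ hne3 (K * X) (one_le_mul_of_one_le_of_one_le hK1 hX1)
        (by push_cast; exact hpb (le_ht_c a b c) (le_ht_a a' b' c') (le_ht_c a' b' c') (le_ht_a a b c))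
        (by push_cast; exact hpb (le_ht_c a b c) (le_ht_b a' b' c') (le_ht_c a' b' c') (le_ht_b a b c))
      rw [e0, abs_mul, Real.mul_rpow (by linarith) hX0.le] at h6
      have h7 : κ ≤ K ^ (1 + ε / 2) * |(c : ℝ)| * X ^ (-(ε / 2)) := by
        calc κ ≤ K ^ (1 + ε / 2) * X ^ (1 + ε / 2) * (|(c : ℝ)| * |lf θ t a' b' c'|) := h6
          _ ≤ K ^ (1 + ε / 2) * X ^ (1 + ε / 2) * (|(c : ℝ)| * X ^ (-(1 + ε))) := by gcongr
          _ = K ^ (1 + ε / 2) * |(c : ℝ)| * (X ^ (1 + ε / 2) * X ^ (-(1 + ε))) := by ring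
          _ = _ := by
              rw [← Real.rpow_add hX0]
              congr 2
              ring
      have h8 : X ^ (ε / 2) ≤ K ^ (1 + ε / 2) * |(c : ℝ)| / κ := by
        rw [le_div_iff₀ hκ]
        have i1 : X ^ (-(ε / 2)) * X ^ (ε / 2) = 1 := by rw [← Real.rpow_add hX0]; simp
        calc X ^ (ε / 2) * κ ≤ X ^ (ε / 2) * (K ^ (1 + ε / 2) * |(c : ℝ)| * X ^ (-(ε / 2))) := by gcongr
          _ = K ^ (1 + ε / 2) * |(c : ℝ)| * (X ^ (-(ε / 2)) * X ^ (ε / 2)) := by ring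
          _ = _ := by rw [i1, mul_one]
      have h9 : (X ^ (ε / 2)) ^ (2 / ε) ≤ M :=
        Real.rpow_le_rpow (by positivity) h8 (by positivity)
      rw [← Real.rpow_mul hX0.le] at h9
      have h10 : ε / 2 * (2 / ε) = 1 := by field_simp
      rwa [h10, Real.rpow_one] at h9
    refine (?_ : {x : ℤ × ℤ × ℤ | ht x.1 x.2.1 x.2.2 ≤ M}.Finite).subset hbound
    refine (VL_finite ⌈M⌉₊ |>.insert 0).subset ?_
    intro x hx
    by_cases h0 : x = 0
    · exact Or.inl h0
    · right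
      refine ⟨h0, ?_⟩
      have := Nat.le_ceil M
      have hx' : ht x.1 x.2.1 x.2.2 ≤ M := hx
      show ht x.1 x.2.1 x.2.2 ≤ _
      linarith

end Pool.Agent.D0H49.LI
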