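import Pool.Agent.D0H49.LI.Seq

/-!
# The golden gap for simultaneous approximation
-/

set_option autoImplicit false

namespace Pool.Agent.D0H49.LI

open Real

/-- no relation -/
def Indep (θ t : ℝ) : Prop := ∀ a b c : ℤ, lf θ t a b c = 0 → a = 0 ∧ b = 0 ∧ c = 0

/-- the error of an approximation `(q, p, r)` -/
noncomputable def er (θ t : ℝ) (x : ℤ × ℤ × ℤ) : ℝ := max |x.1 * θ - x.2.1| |x.1 * t - x.2.2|

/-- the candidates `(q, p, r)`, `1 ≤ q ≤ n + 1` -/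
def VS (θ t : ℝ) (n : ℕ) : Set (ℤ × ℤ × ℤ) := {x | 1 ≤ x.1 ∧ x.1 ≤ n + 1 ∧ er θ t x ≤ 1}

lemma VS_mono (θ t : ℝ) : Monotone (VS θ t) := by
  intro a b hab x hx
  refine ⟨hx.1, hx.2.1.trans ?_, hx.2.2⟩
  have : (a : ℤ) ≤ b := by exact_mod_cast hab
  linarith

lemma VS_finite (θ t : ℝ) (n : ℕ) : (VS θ t n).Finite := by
  obtain ⟨B, hB⟩ : ∃ B : ℤ, (n + 1 : ℝ) * (|θ| + |t|) + 1 ≤ B := ⟨_, Int.le_ceil _⟩
  have h : (Set.Icc (1 : ℤ) (n + 1) ×ˢ (Set.Icc (-B) B ×ˢ Set.Icc (-B) B) :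
      Set (ℤ × ℤ × ℤ)).Finite :=
    (Set.finite_Icc _ _).prod ((Set.finite_Icc _ _).prod (Set.finite_Icc _ _))
  refine h.subset ?_
  rintro ⟨q, p, r⟩ ⟨h1, h2, h3⟩
  simp only at h1 h2
  have hq1 : (1 : ℝ) ≤ q := by exact_mod_cast h1
  have hq2 : (q : ℝ) ≤ n + 1 := by exact_mod_cast h2
  have key : ∀ (y : ℝ) (z : ℤ), |y| ≤ |θ| + |t| → |(q : ℝ) * y - z| ≤ 1 → z ∈ Set.Icc (-B) B := by
    intro y z hy hz
    have e1 : |(q : ℝ) * y| ≤ (n + 1) * (|θ| + |t|) := by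
      rw [abs_mul, abs_of_nonneg (by linarith : (0 : ℝ) ≤ q)]
      exact mul_le_mul hq2 hy (abs_nonneg _) (by positivity)
    have e2 := abs_le.1 e1
    have e3 := abs_le.1 hz
    constructor
    · have : -(B : ℝ) ≤ z := by linarith
      exact_mod_cast this
    · have : (z : ℝ) ≤ B := by linarith
      exact_mod_cast this
  have h31 : |(q : ℝ) * θ - p| ≤ 1 := (le_max_left _ _).trans h3
  have h32 : |(q : ℝ) * t - r| ≤ 1 := (le_max_right _ _).trans h3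
  exact ⟨⟨h1, h2⟩, key θ p (by have := abs_nonneg t; linarith) h31,
    key t r (by have := abs_nonneg θ; linarith) h32⟩

lemma er_pos {θ t : ℝ} (hI : Indep θ t) {x : ℤ × ℤ × ℤ} (hx : 1 ≤ x.1) : 0 < er θ t x := by
  unfold er
  apply lt_max_of_lt_left
  rw [abs_pos]
  intro h
  have h1 : lf θ t (-x.2.1) x.1 0 = 0 := by
    unfold lf; push_cast; linarith
  have := (hI _ _ _ h1).2.1
  omega

/-- the determinant of three approximations -/
lemma det_bound (θ t : ℝ) (u v w : ℤ × ℤ × ℤ) {Q e₀ e₁ e₂ : ℝ}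
    (hu : |(u.1 : ℝ)| ≤ Q) (hv : |(v.1 : ℝ)| ≤ Q) (hw : |(w.1 : ℝ)| ≤ Q)
    (h0 : er θ t u ≤ e₀) (h1 : er θ t v ≤ e₁) (h2 : er θ t w ≤ e₂) (h12 : e₂ ≤ e₁) (h01 : e₁ ≤ e₀) :
    |(det3 u v w : ℝ)| ≤ 6 * Q * e₀ * e₁ := by
  have hQ : 0 ≤ Q := (abs_nonneg _).trans hu
  have hp : ∀ x : ℤ × ℤ × ℤ, 0 ≤ er θ t x := fun x => (abs_nonneg _).trans (le_max_left _ _)
  have k0 := (hp u).trans h0
  have k1 := (hp v).trans h1
  have k2 := (hp w).trans h2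
  have e : (det3 u v w : ℝ) =
      u.1 * ((v.1 * θ - v.2.1) * (w.1 * t - w.2.2) - (v.1 * t - v.2.2) * (w.1 * θ - w.2.1)) -
      v.1 * ((u.1 * θ - u.2.1) * (w.1 * t - w.2.2) - (u.1 * t - u.2.2) * (w.1 * θ - w.2.1)) +
      w.1 * ((u.1 * θ - u.2.1) * (v.1 * t - v.2.2) - (u.1 * t - u.2.2) * (v.1 * θ - v.2.1)) := by
    unfold det3; push_cast; ring
  rw [e]
  have mulb : ∀ {a b A B : ℝ}, |a| ≤ A → |b| ≤ B → |a * b| ≤ A * B := by
    intro a b A B ha hb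
    rw [abs_mul]
    exact mul_le_mul ha hb (abs_nonneg _) ((abs_nonneg _).trans ha)
  have u1 : |(u.1 : ℝ) * θ - u.2.1| ≤ e₀ := (le_max_left _ _).trans h0
  have u2 : |(u.1 : ℝ) * t - u.2.2| ≤ e₀ := (le_max_right _ _).trans h0
  have v1 : |(v.1 : ℝ) * θ - v.2.1| ≤ e₁ := (le_max_left _ _).trans h1
  have v2 : |(v.1 : ℝ) * t - v.2.2| ≤ e₁ := (le_max_right _ _).trans h1
  have w1 : |(w.1 : ℝ) * θ - w.2.1| ≤ e₂ := (le_max_left _ _).trans h2
  have w2 : |(w.1 : ℝ) * t - w.2.2| ≤ e₂ := (le_max_right _ _).trans h2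
  have subb : ∀ {a b A : ℝ}, |a| ≤ A → |b| ≤ A → |a - b| ≤ 2 * A := by
    intro a b A ha hb
    have := abs_sub a b
    linarith
  have a1 := mulb hu (subb (mulb v1 w2) (mulb v2 w1))
  have a2 := mulb hv (subb (mulb u1 w2) (mulb u2 w1))
  have a3 := mulb hw (subb (mulb u1 v2) (mulb u2 v1))
  have b1 : Q * (2 * (e₁ * e₂)) ≤ Q * (2 * (e₀ * e₁)) := by
    have : e₁ * e₂ ≤ e₀ * e₁ := by nlinarith
    gcongr
  have b2 : Q * (2 * (e₀ * e₂)) ≤ Q * (2 * (e₀ * e₁)) := by gcongr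
  have c1 := abs_add_le ((u.1 : ℝ) * ((v.1 * θ - v.2.1) * (w.1 * t - w.2.2) - (v.1 * t - v.2.2) * (w.1 * θ - w.2.1)) -
      v.1 * ((u.1 * θ - u.2.1) * (w.1 * t - w.2.2) - (u.1 * t - u.2.2) * (w.1 * θ - w.2.1)))
      (w.1 * ((u.1 * θ - u.2.1) * (v.1 * t - v.2.2) - (u.1 * t - u.2.2) * (v.1 * θ - v.2.1)))
  have c2 := abs_sub ((u.1 : ℝ) * ((v.1 * θ - v.2.1) * (w.1 * t - w.2.2) - (v.1 * t - v.2.2) * (w.1 * θ - w.2.1)))
      (v.1 * ((u.1 * θ - u.2.1) * (w.1 * t - w.2.2) - (u.1 * t - u.2.2) * (w.1 * θ - w.2.1)))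
  have c3 : 6 * Q * e₀ * e₁ = 3 * (Q * (2 * (e₀ * e₁))) := by ring
  rw [c3]
  linarith

/-- the lower bound for the error -/
lemma er_lower {θ : ℝ} (hθ : Msr θ) (t : ℝ) (η : ℝ) (hη : 0 < η) :
    ∃ c : ℝ, 0 < c ∧ ∀ x : ℤ × ℤ × ℤ, 1 ≤ x.1 → er θ t x ≤ 1 → ∀ Q : ℝ, (x.1 : ℝ) ≤ Q →
      c * Q ^ (-(1 + η)) ≤ er θ t x := by
  obtain ⟨c₀, hc₀, h⟩ := hθ η hη
  set M : ℝ := |θ| + 1 with hM
  have hM1 : 1 ≤ M := by have := abs_nonneg θ; linarith
  refine ⟨c₀ * M ^ (-(1 + η)), by positivity, fun x hx hx1 Q hQ => ?_⟩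
  have hq : (1 : ℝ) ≤ x.1 := by exact_mod_cast hx
  have hQ1 : 1 ≤ Q := hq.trans hQ
  have h1 : |(x.1 : ℝ) * θ - x.2.1| ≤ 1 := (le_max_left _ _).trans hx1
  have hMQ : 1 ≤ M * Q := one_le_mul_of_one_le_of_one_le hM1 hQ1
  have e1 : |((-x.2.1 : ℤ) : ℝ)| ≤ M * Q := by
    push_cast
    rw [abs_neg]
    have e2 : |(x.2.1 : ℝ)| ≤ |(x.1 : ℝ) * θ| + |(x.1 : ℝ) * θ - x.2.1| := by
      have := abs_sub ((x.1 : ℝ) * θ) ((x.1 : ℝ) * θ - x.2.1)
      simpa using this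
    have e3 : |(x.1 : ℝ) * θ| ≤ Q * |θ| := by
      rw [abs_mul, abs_of_nonneg (by linarith : (0 : ℝ) ≤ x.1)]
      gcongr
    rw [hM]
    nlinarith
  have e2 : |(x.1 : ℝ)| ≤ M * Q := by
    rw [abs_of_nonneg (by linarith)]
    nlinarith
  have h2 := h (-x.2.1) x.1 (by rintro ⟨-, h3⟩; omega) (M * Q) hMQ e1 e2
  have e3 : |((-x.2.1 : ℤ) : ℝ) + x.1 * θ| ≤ er θ t x := by
    have : ((-x.2.1 : ℤ) : ℝ) + x.1 * θ = (x.1 : ℝ) * θ - x.2.1 := by push_cast; ring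
    rw [this]
    exact le_max_left _ _
  have hpos : 0 < M * Q := by linarith
  have e4 : (M * Q) ^ (1 + η) * (M * Q) ^ (-(1 + η)) = 1 := by
    rw [← Real.rpow_add hpos]; simp
  have e5 : c₀ * M ^ (-(1 + η)) * Q ^ (-(1 + η)) = c₀ * (M * Q) ^ (-(1 + η)) := by
    rw [Real.mul_rpow (by linarith) (by linarith)]; ring
  rw [e5]
  calc c₀ * (M * Q) ^ (-(1 + η))
      ≤ ((M * Q) ^ (1 + η) * |((-x.2.1 : ℤ) : ℝ) + x.1 * θ|) * (M * Q) ^ (-(1 + η)) := by gcongr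
    _ = ((M * Q) ^ (1 + η) * (M * Q) ^ (-(1 + η))) * |((-x.2.1 : ℤ) : ℝ) + x.1 * θ| := by ring
    _ ≤ er θ t x := by rw [e4, one_mul]; exact e3

/-- the numerical contradiction -/
lemma numeric {l η : ℝ} (hl0 : 0 < l) (hl1 : l < 1) (hη : (1 + η) * (1 - l) < l ^ 2)
    (A B : ℝ) (hA : 0 < A) (hB : 0 < B) :
    ∃ M : ℝ, ∀ Q R : ℝ, 1 ≤ Q → 1 ≤ R → Q ^ l ≤ A * R ^ (1 - l) → R ^ l ≤ B * Q ^ (1 + η) → Q ≤ M := by
  set δ := l ^ 2 - (1 + η) * (1 - l) with hδ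
  have hδ0 : 0 < δ := by linarith
  refine ⟨(A ^ l * B ^ (1 - l)) ^ (1 / δ), fun Q R hQ hR h1 h2 => ?_⟩
  have hQ0 : 0 < Q := by linarith
  have hR0 : 0 < R := by linarith
  have e1 : Q ^ (l ^ 2) ≤ A ^ l * (R ^ l) ^ (1 - l) := by
    have i1 : (Q ^ l) ^ l ≤ (A * R ^ (1 - l)) ^ l :=
      Real.rpow_le_rpow (by positivity) h1 hl0.le
    rw [Real.mul_rpow hA.le (by positivity), ← Real.rpow_mul hQ0.le, ← Real.rpow_mul hR0.le] at i1
    rw [← Real.rpow_mul hR0.le]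
    rw [show l ^ 2 = l * l by ring, show l * (1 - l) = (1 - l) * l by ring]
    exact i1
  have e2 : (R ^ l) ^ (1 - l) ≤ B ^ (1 - l) * Q ^ ((1 + η) * (1 - l)) := by
    have i1 : (R ^ l) ^ (1 - l) ≤ (B * Q ^ (1 + η)) ^ (1 - l) :=
      Real.rpow_le_rpow (by positivity) h2 (by linarith)
    rw [Real.mul_rpow hB.le (by positivity), ← Real.rpow_mul hQ0.le] at i1
    exact i1
  have e3 : Q ^ (l ^ 2) ≤ (A ^ l * B ^ (1 - l)) * Q ^ ((1 + η) * (1 - l)) := by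
    calc Q ^ (l ^ 2) ≤ A ^ l * (R ^ l) ^ (1 - l) := e1
      _ ≤ A ^ l * (B ^ (1 - l) * Q ^ ((1 + η) * (1 - l))) := by gcongr
      _ = _ := by ring
  have e4 : Q ^ δ ≤ A ^ l * B ^ (1 - l) := by
    have i1 : Q ^ (l ^ 2) = Q ^ δ * Q ^ ((1 + η) * (1 - l)) := by
      rw [← Real.rpow_add hQ0]; congr 1; rw [hδ]; ring
    rw [i1] at e3
    exact le_of_mul_le_mul_right e3 (by positivity)
  have e5 : (Q ^ δ) ^ (1 / δ) ≤ (A ^ l * B ^ (1 - l)) ^ (1 / δ) :=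
    Real.rpow_le_rpow (by positivity) e4 (by positivity)
  rwa [← Real.rpow_mul hQ0.le, mul_one_div_cancel hδ0.ne', Real.rpow_one] at e5

/-- **The golden gap.** -/
theorem golden {θ : ℝ} (hθ : Msr θ) (t : ℝ) (hI : Indep θ t) {l : ℝ} (hl0 : 0 < l)
    (hl : 1 < l ^ 2 + l) (X₀ : ℝ) :
    ∃ X : ℝ, X₀ ≤ X ∧ ∀ q p r : ℤ, 1 ≤ q → (q : ℝ) ≤ X → X ^ (-l) < er θ t (q, p, r) := by
  -- we may assume `l < 1`
  wlog hl1 : l < 1 generalizing l
  · push Not at hl1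
    obtain ⟨X, hX, h⟩ := this (l := 9 / 10) (by norm_num) (by norm_num) (by norm_num)
    by_cases hX1 : 1 ≤ X
    · refine ⟨X, hX, fun q p r hq hqX => ?_⟩
      have h1 : X ^ (-l) ≤ X ^ (-(9 / 10 : ℝ)) := Real.rpow_le_rpow_of_exponent_le hX1 (by linarith)
      exact h1.trans_lt (h q p r hq hqX)
    · push Not at hX1
      refine ⟨X, hX, fun q p r hq hqX => ?_⟩
      have : (1 : ℝ) ≤ q := by exact_mod_cast hq
      linarith
  by_contra hcon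
  push Not at hcon
  -- the hypothesis: solutions at all large scales
  have hsol : ∀ X : ℝ, X₀ ≤ X → ∃ x : ℤ × ℤ × ℤ, 1 ≤ x.1 ∧ (x.1 : ℝ) ≤ X ∧ er θ t x ≤ X ^ (-l) := by
    intro X hX
    obtain ⟨q, p, r, h1, h2, h3⟩ := hcon X hX
    exact ⟨(q, p, r), h1, h2, h3⟩
  -- small values
  have hsmall : ∀ δ : ℝ, 0 < δ → ∃ n, ∃ x ∈ VS θ t n, er θ t x < δ := by
    intro δ hδ
    obtain ⟨X, hX1, hX2⟩ : ∃ X : ℝ, max X₀ 1 ≤ X ∧ X ^ (-l) < min δ 1 := by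
      have h1 : Filter.Tendsto (fun X : ℝ => X ^ (-l)) Filter.atTop (nhds 0) :=
        tendsto_rpow_neg_atTop hl0
      have h2 := (h1.eventually (gt_mem_nhds (show (0 : ℝ) < min δ 1 by positivity))).and
        (Filter.eventually_ge_atTop (max X₀ 1))
      obtain ⟨X, hX⟩ := h2.exists
      exact ⟨X, hX.2, hX.1⟩
    obtain ⟨x, h1, h2, h3⟩ := hsol X ((le_max_left _ _).trans hX1)
    refine ⟨⌈X⌉₊, x, ⟨h1, ?_, ?_⟩, ?_⟩
    · have h4 : (x.1 : ℝ) ≤ ((⌈X⌉₊ : ℤ) : ℝ) := by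
        push_cast
        exact h2.trans (Nat.le_ceil X)
      have h5 : x.1 ≤ (⌈X⌉₊ : ℤ) := by exact_mod_cast h4
      linarith
    · exact h3.trans (hX2.le.trans (min_le_right _ _))
    · exact h3.trans_lt (hX2.trans_le (min_le_left _ _))
  obtain ⟨N, x, hN, hxV, hdec, hmin⟩ := exists_minimal (VS θ t) (er θ t) (VS_mono θ t)
    (VS_finite θ t) ⟨(1, round θ, round t), le_rfl, by simp, by
      unfold er
      simp only [Int.cast_one, one_mul]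
      have h1 := abs_sub_round θ
      have h2 := abs_sub_round t
      exact max_le (by linarith) (by linarith)⟩
    (fun n x hx => er_pos hI hx.1) hsmall
  have hq1 : ∀ k, (1 : ℝ) ≤ (x k).1 := fun k => by exact_mod_cast (hxV k).1
  have hqN : ∀ k, ((x k).1 : ℝ) ≤ N k + 1 := fun k => by exact_mod_cast (hxV k).2.1
  have hanti : Antitone fun k => er θ t (x k) := antitone_nat_of_succ_le fun k => (hdec k).le
  -- consecutive vectors are not proportional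
  have hcr : ∀ k, cr (x k) (x (k + 1)) ≠ 0 := by
    intro k h0
    have h1 : (x k).2.2 * (x (k + 1)).1 = (x k).1 * (x (k + 1)).2.2 := by
      have := congrArg (fun z : ℤ × ℤ × ℤ => z.2.1) h0
      simp only [cr, Prod.snd_zero, Prod.fst_zero] at this
      linarith
    have h2 : (x k).1 * (x (k + 1)).2.1 = (x k).2.1 * (x (k + 1)).1 := by
      have := congrArg (fun z : ℤ × ℤ × ℤ => z.2.2) h0
      simp only [cr, Prod.snd_zero] at this
      linarith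
    have h1' : ((x k).2.2 : ℝ) * (x (k + 1)).1 = (x k).1 * (x (k + 1)).2.2 := by exact_mod_cast h1
    have h2' : ((x k).1 : ℝ) * (x (k + 1)).2.1 = (x k).2.1 * (x (k + 1)).1 := by exact_mod_cast h2
    have p1 := hq1 k
    have p2 := hq1 (k + 1)
    -- `q_k err_{k+1} = q_{k+1} err_k`
    have e1 : ((x k).1 : ℝ) * er θ t (x (k + 1)) = (x (k + 1)).1 * er θ t (x k) := by
      unfold er
      rw [mul_max_of_nonneg _ _ (by linarith), mul_max_of_nonneg _ _ (by linarith)]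
      congr 1
      · rw [← abs_of_nonneg (by linarith : (0 : ℝ) ≤ (x k).1),
          ← abs_of_nonneg (by linarith : (0 : ℝ) ≤ (x (k + 1)).1), ← abs_mul, ← abs_mul,
          abs_of_nonneg (by linarith : (0 : ℝ) ≤ (x k).1),
          abs_of_nonneg (by linarith : (0 : ℝ) ≤ (x (k + 1)).1)]
        congr 1
        linear_combination -h2'
      · rw [← abs_of_nonneg (by linarith : (0 : ℝ) ≤ (x k).1),
          ← abs_of_nonneg (by linarith : (0 : ℝ) ≤ (x (k + 1)).1), ← abs_mul, ← abs_mul,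
          abs_of_nonneg (by linarith : (0 : ℝ) ≤ (x k).1),
          abs_of_nonneg (by linarith : (0 : ℝ) ≤ (x (k + 1)).1)]
        congr 1
        linear_combination h1'
    -- so `q_{k+1} < q_k`
    have h3 := er_pos hI (hxV (k + 1)).1
    have h4 := hdec k
    have h5 : ((x (k + 1)).1 : ℝ) < (x k).1 := by
      by_contra hh
      push Not at hh
      nlinarith
    -- and `x (k + 1)` is a candidate at the level `N k`
    have h6 : x (k + 1) ∈ VS θ t (N k) := by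
      refine ⟨(hxV (k + 1)).1, ?_, (hxV (k + 1)).2.2⟩
      have : (x (k + 1)).1 < (x k).1 := by exact_mod_cast h5
      exact this.le.trans (hxV k).2.1
    have h7 := hmin k (N k) (hN (Nat.lt_succ_self k)) _ h6
    linarith
  -- infinitely many non-vanishing determinants
  have hinf : ∀ K, ∃ k, K ≤ k ∧ det3 (x k) (x (k + 1)) (x (k + 2)) ≠ 0 := by
    intro K
    by_contra hh
    push Not at hh
    have h1 := plane x hcr K hh
    set n := cr (x K) (x (K + 1)) with hn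
    have hn0 : n ≠ 0 := hcr K
    -- the relation
    have hrel : lf θ t n.1 n.2.1 n.2.2 = 0 := by
      by_contra hL
      have hL0 : 0 < |lf θ t n.1 n.2.1 n.2.2| := abs_pos.2 hL
      obtain ⟨δ, hδ0, hδ⟩ : ∃ δ : ℝ, 0 < δ ∧ (|(n.2.1 : ℝ)| + |(n.2.2 : ℝ)|) * δ <
          |lf θ t n.1 n.2.1 n.2.2| := by
        refine ⟨|lf θ t n.1 n.2.1 n.2.2| / (|(n.2.1 : ℝ)| + |(n.2.2 : ℝ)| + 1), by positivity, ?_⟩
        rw [mul_div_assoc', div_lt_iff₀ (by positivity)]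
        nlinarith
      obtain ⟨m, y, hy, hyδ⟩ := hsmall δ hδ0
      -- find `k ≥ K` with `er (x k) < δ`
      obtain ⟨k, hkK, hk⟩ : ∃ k, K ≤ k ∧ er θ t (x k) < δ := by
        refine ⟨max K (m + 1), le_max_left _ _, ?_⟩
        have h3 : m < N (max K (m + 1) + 1) := by
          have := hN.le_apply (x := max K (m + 1) + 1)
          have h4 := le_max_right K (m + 1)
          omega
        exact (hmin _ m h3 y hy).trans_lt hyδ
      have h4 := h1 k hkK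
      unfold dt at h4
      have h4' : (n.1 : ℝ) * (x k).1 + n.2.1 * (x k).2.1 + n.2.2 * (x k).2.2 = 0 := by
        exact_mod_cast h4
      have h5 : ((x k).1 : ℝ) * lf θ t n.1 n.2.1 n.2.2 =
          n.2.1 * ((x k).1 * θ - (x k).2.1) + n.2.2 * ((x k).1 * t - (x k).2.2) := by
        unfold lf
        linear_combination h4'
      have h6 : |((x k).1 : ℝ) * lf θ t n.1 n.2.1 n.2.2| ≤
          (|(n.2.1 : ℝ)| + |(n.2.2 : ℝ)|) * er θ t (x k) := by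
        rw [h5]
        have i1 : |(x k).1 * θ - ((x k).2.1 : ℝ)| ≤ er θ t (x k) := le_max_left _ _
        have i2 : |(x k).1 * t - ((x k).2.2 : ℝ)| ≤ er θ t (x k) := le_max_right _ _
        calc |(n.2.1 : ℝ) * ((x k).1 * θ - (x k).2.1) + n.2.2 * ((x k).1 * t - (x k).2.2)|
            ≤ |(n.2.1 : ℝ) * ((x k).1 * θ - (x k).2.1)| + |(n.2.2 : ℝ) * ((x k).1 * t - (x k).2.2)| :=
              abs_add_le _ _
          _ = |(n.2.1 : ℝ)| * |(x k).1 * θ - ((x k).2.1 : ℝ)| +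
              |(n.2.2 : ℝ)| * |(x k).1 * t - ((x k).2.2 : ℝ)| := by rw [abs_mul, abs_mul]
          _ ≤ |(n.2.1 : ℝ)| * er θ t (x k) + |(n.2.2 : ℝ)| * er θ t (x k) := by gcongr
          _ = _ := by ring
      have h7 : |lf θ t n.1 n.2.1 n.2.2| ≤ |((x k).1 : ℝ) * lf θ t n.1 n.2.1 n.2.2| := by
        rw [abs_mul]
        have := hq1 k
        exact le_mul_of_one_le_left (abs_nonneg _) (this.trans (le_abs_self _))
      have h8 : (|(n.2.1 : ℝ)| + |(n.2.2 : ℝ)|) * er θ t (x k) ≤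
          (|(n.2.1 : ℝ)| + |(n.2.2 : ℝ)|) * δ := by gcongr
      linarith
    obtain ⟨a1, a2, a3⟩ := hI _ _ _ hrel
    apply hn0
    ext
    · exact a1
    · exact a2
    · exact a3
  -- the choice of `η`
  obtain ⟨η, hη0, hη⟩ : ∃ η : ℝ, 0 < η ∧ (1 + η) * (1 - l) < l ^ 2 := by
    refine ⟨(l ^ 2 + l - 1) / 2, by linarith, ?_⟩
    nlinarith
  obtain ⟨c₁, hc₁, hlow⟩ := er_lower hθ t η hη0
  -- upper bounds for the errors
  have hup : ∀ k, X₀ ≤ N (k + 1) → er θ t (x k) ≤ 2 ^ l * ((N (k + 1) : ℝ) + 1) ^ (-l) := by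
    intro k hk
    have hN1 : 1 ≤ N (k + 1) := by
      have := hN.le_apply (x := k + 1)
      omega
    have hNr : (1 : ℝ) ≤ N (k + 1) := by exact_mod_cast hN1
    obtain ⟨y, h1, h2, h3⟩ := hsol (N (k + 1)) hk
    have h4 : y ∈ VS θ t (N (k + 1) - 1) := by
      refine ⟨h1, ?_, ?_⟩
      · have : y.1 ≤ (N (k + 1) : ℤ) := by exact_mod_cast h2
        have h5 : ((N (k + 1) - 1 : ℕ) : ℤ) = (N (k + 1) : ℤ) - 1 := by omega
        rw [h5]; linarith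
      · refine h3.trans ?_
        exact Real.rpow_le_one_of_one_le_of_nonpos hNr (by linarith)
    have h5 := hmin k (N (k + 1) - 1) (by omega) y h4
    refine (h5.trans h3).trans ?_
    -- `N ^ (-l) ≤ 2 ^ l (N + 1) ^ (-l)`
    have h6 : ((N (k + 1) : ℝ) + 1) / 2 ≤ N (k + 1) := by linarith
    have h7 : (N (k + 1) : ℝ) ^ (-l) ≤ (((N (k + 1) : ℝ) + 1) / 2) ^ (-l) :=
      Real.rpow_le_rpow_of_nonpos (by positivity) h6 (by linarith)
    refine h7.trans (le_of_eq ?_)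
    rw [Real.div_rpow (by positivity) (by norm_num), Real.rpow_neg (by norm_num : (0 : ℝ) ≤ 2), div_inv_eq_mul,
      mul_comm]
  obtain ⟨M, hM⟩ := numeric (η := η) hl0 hl1 hη (6 * 2 ^ l * 2 ^ l) (2 ^ l / c₁) (by positivity)
    (by positivity)
  -- a large index
  obtain ⟨K, hK⟩ := exists_nat_gt (max X₀ M)
  obtain ⟨k, hkK, hk⟩ := hinf K
  set Q : ℝ := (N (k + 1) : ℝ) + 1 with hQdef
  set R : ℝ := (N (k + 2) : ℝ) + 1 with hRdef
  have hQ1 : 1 ≤ Q := by rw [hQdef]; have := Nat.cast_nonneg (α := ℝ) (N (k + 1)); linarith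
  have hR1 : 1 ≤ R := by rw [hRdef]; have := Nat.cast_nonneg (α := ℝ) (N (k + 2)); linarith
  have hQ0 : 0 < Q := by linarith
  have hR0 : 0 < R := by linarith
  have hkN1 : (K : ℝ) ≤ N (k + 1) := by
    have := hN.le_apply (x := k + 1)
    exact_mod_cast (by omega : K ≤ N (k + 1))
  have hkN2 : (K : ℝ) ≤ N (k + 2) := by
    have := hN.le_apply (x := k + 2)
    exact_mod_cast (by omega : K ≤ N (k + 2))
  have hX1 : X₀ ≤ N (k + 1) := by
    have := (le_max_left X₀ M).trans_lt hK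
    linarith
  have hX2 : X₀ ≤ N (k + 2) := by
    have := (le_max_left X₀ M).trans_lt hK
    linarith
  have u0 := hup k hX1
  have u1 := hup (k + 1) hX2
  have hQdef' : ((N (k + 1) : ℝ) + 1) = Q := rfl
  rw [hQdef'] at u0
  have hRdef' : ((N (k + 1 + 1) : ℝ) + 1) = R := rfl
  rw [hRdef'] at u1
  have p0 := er_pos hI (hxV k).1
  have p1 := er_pos hI (hxV (k + 1)).1
  -- the determinant
  have hNm : ∀ i j, i ≤ j → (N i : ℝ) ≤ N j := fun i j hij => by exact_mod_cast hN.monotone hij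
  have hd := det_bound θ t (x k) (x (k + 1)) (x (k + 2)) (Q := R) (e₀ := er θ t (x k))
    (e₁ := er θ t (x (k + 1))) (e₂ := er θ t (x (k + 2)))
    (by rw [abs_of_nonneg (by linarith [hq1 k])]
        have := hqN k; have := hNm k (k + 2) (by omega); rw [hRdef]; linarith)
    (by rw [abs_of_nonneg (by linarith [hq1 (k + 1)])]
        have := hqN (k + 1); have := hNm (k + 1) (k + 2) (by omega); rw [hRdef]; linarith)
    (by rw [abs_of_nonneg (by linarith [hq1 (k + 2)])]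
        have := hqN (k + 2); rw [hRdef]; linarith)
    le_rfl le_rfl le_rfl (hanti (by omega)) (hanti (by omega))
  have hd1 : (1 : ℝ) ≤ |(det3 (x k) (x (k + 1)) (x (k + 2)) : ℝ)| := one_le_abs hk
  have hmain1 : Q ^ l ≤ (6 * 2 ^ l * 2 ^ l) * R ^ (1 - l) := by
    have i1 : 1 ≤ 6 * R * (2 ^ l * Q ^ (-l)) * (2 ^ l * R ^ (-l)) := by
      calc (1 : ℝ) ≤ 6 * R * er θ t (x k) * er θ t (x (k + 1)) := hd1.trans hd
        _ ≤ 6 * R * (2 ^ l * Q ^ (-l)) * (2 ^ l * R ^ (-l)) := by gcongr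
    have i2 : Q ^ l * Q ^ (-l) = 1 := by rw [← Real.rpow_add hQ0]; simp
    have i3 : R * R ^ (-l) = R ^ (1 - l) := by
      rw [show (1 : ℝ) - l = 1 + -l by ring, Real.rpow_add hR0, Real.rpow_one]
    calc Q ^ l = Q ^ l * 1 := by ring
      _ ≤ Q ^ l * (6 * R * (2 ^ l * Q ^ (-l)) * (2 ^ l * R ^ (-l))) := by gcongr
      _ = (6 * 2 ^ l * 2 ^ l) * (Q ^ l * Q ^ (-l)) * (R * R ^ (-l)) := by ring
      _ = _ := by rw [i2, i3]; ring
  have hmain2 : R ^ l ≤ 2 ^ l / c₁ * Q ^ (1 + η) := by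
    have i0 := hlow (x (k + 1)) (hxV (k + 1)).1 (hxV (k + 1)).2.2 Q (by rw [hQdef]; exact hqN (k + 1))
    have i1 : c₁ * Q ^ (-(1 + η)) ≤ 2 ^ l * R ^ (-l) := i0.trans u1
    have i2 : R ^ (-l) * R ^ l = 1 := by rw [← Real.rpow_add hR0]; simp
    have i3 : Q ^ (-(1 + η)) * Q ^ (1 + η) = 1 := by rw [← Real.rpow_add hQ0]; simp
    have i4 : 0 < R ^ l * Q ^ (1 + η) := by positivity
    have i5 := mul_le_mul_of_nonneg_right i1 i4.le
    have i6 : c₁ * Q ^ (-(1 + η)) * (R ^ l * Q ^ (1 + η)) = c₁ * R ^ l := by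
      calc c₁ * Q ^ (-(1 + η)) * (R ^ l * Q ^ (1 + η)) =
          c₁ * R ^ l * (Q ^ (-(1 + η)) * Q ^ (1 + η)) := by ring
        _ = _ := by rw [i3, mul_one]
    have i7 : 2 ^ l * R ^ (-l) * (R ^ l * Q ^ (1 + η)) = 2 ^ l * Q ^ (1 + η) := by
      calc 2 ^ l * R ^ (-l) * (R ^ l * Q ^ (1 + η)) =
          2 ^ l * Q ^ (1 + η) * (R ^ (-l) * R ^ l) := by ring
        _ = _ := by rw [i2, mul_one]
    rw [i6, i7] at i5
    rw [div_mul_eq_mul_div, le_div_iff₀ hc₁]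
    linarith
  have hfin := hM Q R hQ1 hR1 hmain1 hmain2
  have : M < Q := by
    have := (le_max_right X₀ M).trans_lt hK
    rw [hQdef]; linarith
  linarith

end Pool.Agent.D0H49.LI
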