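import Pool.Agent.D0H49.LI.Gold

/-!
# The golden gap for linear forms
-/

set_option autoImplicit false

namespace Pool.Agent.D0H49.LI

open Real

/-- the value of a vector -/
noncomputable def vl (θ t : ℝ) (x : ℤ × ℤ × ℤ) : ℝ := |lf θ t x.1 x.2.1 x.2.2|

/-- the height of a vector -/
noncomputable def hh (x : ℤ × ℤ × ℤ) : ℝ := ht x.1 x.2.1 x.2.2

/-- the candidates of height at most `n + 1` -/
def VL (n : ℕ) : Set (ℤ × ℤ × ℤ) := {x | x ≠ 0 ∧ hh x ≤ n + 1}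

lemma VL_mono : Monotone VL := by
  intro a b hab x hx
  refine ⟨hx.1, hx.2.trans ?_⟩
  have : (a : ℝ) ≤ b := by exact_mod_cast hab
  linarith

lemma VL_finite (n : ℕ) : (VL n).Finite := by
  have h : (Set.Icc (-(n + 1) : ℤ) (n + 1) ×ˢ (Set.Icc (-(n + 1) : ℤ) (n + 1) ×ˢ
      Set.Icc (-(n + 1) : ℤ) (n + 1)) : Set (ℤ × ℤ × ℤ)).Finite :=
    (Set.finite_Icc _ _).prod ((Set.finite_Icc _ _).prod (Set.finite_Icc _ _))
  refine h.subset ?_
  rintro ⟨a, b, c⟩ ⟨-, h4⟩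
  have key : ∀ z : ℤ, |(z : ℝ)| ≤ n + 1 → z ∈ Set.Icc (-(n + 1) : ℤ) (n + 1) := by
    intro z hz
    have h1 := abs_le.1 hz
    constructor
    · have : (-((n : ℝ) + 1)) ≤ z := by linarith
      exact_mod_cast this
    · exact_mod_cast h1.2
  exact ⟨key a ((le_ht_a a b c).trans h4), key b ((le_ht_b a b c).trans h4),
    key c ((le_ht_c a b c).trans h4)⟩

lemma ne_zero_iff3 {x : ℤ × ℤ × ℤ} : x ≠ 0 ↔ ¬ (x.1 = 0 ∧ x.2.1 = 0 ∧ x.2.2 = 0) := by
  constructor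
  · rintro h ⟨h1, h2, h3⟩
    apply h
    ext
    · exact h1
    · exact h2
    · exact h3
  · rintro h rfl
    exact h ⟨rfl, rfl, rfl⟩

lemma vl_pos {θ t : ℝ} (hI : Indep θ t) {x : ℤ × ℤ × ℤ} (hx : x ≠ 0) : 0 < vl θ t x := by
  unfold vl
  rw [abs_pos]
  intro h
  exact ne_zero_iff3.1 hx (hI _ _ _ h)

lemma one_le_hh {x : ℤ × ℤ × ℤ} (hx : x ≠ 0) : 1 ≤ hh x := one_le_ht (ne_zero_iff3.1 hx)

/-- the determinant of three vectors in terms of the values of the linear form -/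
lemma det_bound' (θ t : ℝ) (u v w : ℤ × ℤ × ℤ) {H₁ H₂ e₀ : ℝ}
    (hu : hh u ≤ H₁) (hv : hh v ≤ H₁) (hw : hh w ≤ H₂) (h12 : H₁ ≤ H₂)
    (h0 : vl θ t u ≤ e₀) (h1 : vl θ t v ≤ e₀) (h2 : vl θ t w ≤ e₀) :
    |(det3 u v w : ℝ)| ≤ 6 * H₁ * H₂ * e₀ := by
  have hH1 : 0 ≤ H₁ := (ht_nonneg _ _ _).trans hu
  have hH2 : 0 ≤ H₂ := hH1.trans h12
  have he : 0 ≤ e₀ := (abs_nonneg _).trans h0
  have e : (det3 u v w : ℝ) =
      lf θ t u.1 u.2.1 u.2.2 * (v.2.1 * w.2.2 - v.2.2 * w.2.1) -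
      lf θ t v.1 v.2.1 v.2.2 * (u.2.1 * w.2.2 - u.2.2 * w.2.1) +
      lf θ t w.1 w.2.1 w.2.2 * (u.2.1 * v.2.2 - u.2.2 * v.2.1) := by
    unfold det3 lf; push_cast; ring
  rw [e]
  have mulb : ∀ {a b A B : ℝ}, |a| ≤ A → |b| ≤ B → |a * b| ≤ A * B := by
    intro a b A B ha hb
    rw [abs_mul]
    exact mul_le_mul ha hb (abs_nonneg _) ((abs_nonneg _).trans ha)
  have subb : ∀ {a b A : ℝ}, |a| ≤ A → |b| ≤ A → |a - b| ≤ 2 * A := by
    intro a b A ha hb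
    have := abs_sub a b
    linarith
  have ub := (le_ht_b u.1 u.2.1 u.2.2).trans hu
  have uc := (le_ht_c u.1 u.2.1 u.2.2).trans hu
  have vb := (le_ht_b v.1 v.2.1 v.2.2).trans hv
  have vc := (le_ht_c v.1 v.2.1 v.2.2).trans hv
  have wb := (le_ht_b w.1 w.2.1 w.2.2).trans hw
  have wc := (le_ht_c w.1 w.2.1 w.2.2).trans hw
  have a1 := mulb (show |lf θ t u.1 u.2.1 u.2.2| ≤ e₀ from h0) (subb (mulb vb wc) (mulb vc wb))
  have a2 := mulb (show |lf θ t v.1 v.2.1 v.2.2| ≤ e₀ from h1) (subb (mulb ub wc) (mulb uc wb))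
  have a3 := mulb (show |lf θ t w.1 w.2.1 w.2.2| ≤ e₀ from h2) (subb (mulb ub vc) (mulb uc vb))
  have b1 : e₀ * (2 * (H₁ * H₁)) ≤ e₀ * (2 * (H₁ * H₂)) := by gcongr
  have c1 := abs_add_le (lf θ t u.1 u.2.1 u.2.2 * ((v.2.1 : ℝ) * w.2.2 - v.2.2 * w.2.1) -
      lf θ t v.1 v.2.1 v.2.2 * ((u.2.1 : ℝ) * w.2.2 - u.2.2 * w.2.1))
      (lf θ t w.1 w.2.1 w.2.2 * ((u.2.1 : ℝ) * v.2.2 - u.2.2 * v.2.1))
  have c2 := abs_sub (lf θ t u.1 u.2.1 u.2.2 * ((v.2.1 : ℝ) * w.2.2 - v.2.2 * w.2.1))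
      (lf θ t v.1 v.2.1 v.2.2 * ((u.2.1 : ℝ) * w.2.2 - u.2.2 * w.2.1))
  have c3 : 6 * H₁ * H₂ * e₀ = 3 * (e₀ * (2 * (H₁ * H₂))) := by ring
  rw [c3]
  linarith

/-- the numerical contradiction -/
lemma numeric' {w η : ℝ} (hw : 1 < w) (hη0 : 0 < η) (hη : 1 + η < (w - 1) * (w - 2 - η))
    (A B : ℝ) (hA : 0 < A) (hB : 0 < B) :
    ∃ M : ℝ, ∀ Q R : ℝ, 1 ≤ Q → 1 ≤ R → Q ^ (w - 1) ≤ A * R → R ^ (w - 2 - η) ≤ B * Q ^ (1 + η) →
      Q ≤ M := by
  have hw2 : 0 < w - 2 - η := by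
    by_contra hh
    push Not at hh
    nlinarith
  set δ := (w - 1) * (w - 2 - η) - (1 + η) with hδ
  have hδ0 : 0 < δ := by linarith
  refine ⟨(A ^ (w - 2 - η) * B) ^ (1 / δ), fun Q R hQ hR h1 h2 => ?_⟩
  have hQ0 : 0 < Q := by linarith
  have hR0 : 0 < R := by linarith
  have e1 : Q ^ ((w - 1) * (w - 2 - η)) ≤ A ^ (w - 2 - η) * R ^ (w - 2 - η) := by
    have i1 : (Q ^ (w - 1)) ^ (w - 2 - η) ≤ (A * R) ^ (w - 2 - η) :=
      Real.rpow_le_rpow (by positivity) h1 hw2.le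
    rwa [Real.mul_rpow hA.le hR0.le, ← Real.rpow_mul hQ0.le] at i1
  have e3 : Q ^ ((w - 1) * (w - 2 - η)) ≤ (A ^ (w - 2 - η) * B) * Q ^ (1 + η) := by
    calc Q ^ ((w - 1) * (w - 2 - η)) ≤ A ^ (w - 2 - η) * R ^ (w - 2 - η) := e1
      _ ≤ A ^ (w - 2 - η) * (B * Q ^ (1 + η)) := by gcongr
      _ = _ := by ring
  have e4 : Q ^ δ ≤ A ^ (w - 2 - η) * B := by
    have i1 : Q ^ ((w - 1) * (w - 2 - η)) = Q ^ δ * Q ^ (1 + η) := by
      rw [← Real.rpow_add hQ0]; congr 1; rw [hδ]; ring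
    rw [i1] at e3
    exact le_of_mul_le_mul_right e3 (by positivity)
  have e5 : (Q ^ δ) ^ (1 / δ) ≤ (A ^ (w - 2 - η) * B) ^ (1 / δ) :=
    Real.rpow_le_rpow (by positivity) e4 (by positivity)
  rwa [← Real.rpow_mul hQ0.le, mul_one_div_cancel hδ0.ne', Real.rpow_one] at e5

/-- **The golden gap for linear forms.** -/
theorem golden' {θ : ℝ} (hθ : Msr θ) (t : ℝ) (hI : Indep θ t) {w : ℝ} (hw1 : 2 < w)
    (hw : 1 < (w - 1) * (w - 2)) (H₀ : ℝ) :
    ∃ H : ℝ, H₀ ≤ H ∧ ∀ x : ℤ × ℤ × ℤ, x ≠ 0 → hh x ≤ H → H ^ (-w) < vl θ t x := by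
  by_contra hcon
  push Not at hcon
  have hw0 : 0 < w := by linarith
  -- small values
  have hsmall : ∀ δ : ℝ, 0 < δ → ∃ n, ∃ x ∈ VL n, vl θ t x < δ := by
    intro δ hδ
    obtain ⟨X, hX1, hX2⟩ : ∃ X : ℝ, max H₀ 1 ≤ X ∧ X ^ (-w) < δ := by
      have h1 : Filter.Tendsto (fun X : ℝ => X ^ (-w)) Filter.atTop (nhds 0) :=
        tendsto_rpow_neg_atTop hw0
      have h2 := (h1.eventually (gt_mem_nhds hδ)).and (Filter.eventually_ge_atTop (max H₀ 1))
      obtain ⟨X, hX⟩ := h2.exists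
      exact ⟨X, hX.2, hX.1⟩
    obtain ⟨x, h1, h2, h3⟩ := hcon X ((le_max_left _ _).trans hX1)
    refine ⟨⌈X⌉₊, x, ⟨h1, ?_⟩, h3.trans_lt hX2⟩
    have := Nat.le_ceil X
    linarith
  obtain ⟨N, x, hN, hxV, hdec, hmin⟩ := exists_minimal VL (vl θ t) VL_mono VL_finite
    ⟨(1, 0, 0), by
      refine ⟨by intro h; simp at h, ?_⟩
      unfold hh ht
      simp⟩
    (fun n x hx => vl_pos hI hx.1) hsmall
  have hh1 : ∀ k, 1 ≤ hh (x k) := fun k => one_le_hh (hxV k).1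
  have hhN : ∀ k, hh (x k) ≤ N k + 1 := fun k => (hxV k).2
  have hanti : Antitone fun k => vl θ t (x k) := antitone_nat_of_succ_le fun k => (hdec k).le
  -- consecutive vectors are not proportional
  have hcr : ∀ k, cr (x k) (x (k + 1)) ≠ 0 := by
    intro k h0
    have z1 : (x k).2.1 * (x (k + 1)).2.2 = (x k).2.2 * (x (k + 1)).2.1 := by
      have := congrArg (fun z : ℤ × ℤ × ℤ => z.1) h0
      simp only [cr, Prod.fst_zero] at this
      linarith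
    have z2 : (x k).2.2 * (x (k + 1)).1 = (x k).1 * (x (k + 1)).2.2 := by
      have := congrArg (fun z : ℤ × ℤ × ℤ => z.2.1) h0
      simp only [cr, Prod.snd_zero, Prod.fst_zero] at this
      linarith
    have z3 : (x k).1 * (x (k + 1)).2.1 = (x k).2.1 * (x (k + 1)).1 := by
      have := congrArg (fun z : ℤ × ℤ × ℤ => z.2.2) h0
      simp only [cr, Prod.snd_zero] at this
      linarith
    have y1 : ((x k).2.1 : ℝ) * (x (k + 1)).2.2 = (x k).2.2 * (x (k + 1)).2.1 := by exact_mod_cast z1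
    have y2 : ((x k).2.2 : ℝ) * (x (k + 1)).1 = (x k).1 * (x (k + 1)).2.2 := by exact_mod_cast z2
    have y3 : ((x k).1 : ℝ) * (x (k + 1)).2.1 = (x k).2.1 * (x (k + 1)).1 := by exact_mod_cast z3
    have p1 := vl_pos hI (hxV k).1
    have p2 := vl_pos hI (hxV (k + 1)).1
    have h4 := hdec k
    -- each coordinate of `x (k + 1)` is at most that of `x k`
    have hL : ∀ (f f' g g' : ℝ), True → True := fun _ _ _ _ h => h
    have coord : ∀ (s s' : ℝ), s * lf θ t (x (k + 1)).1 (x (k + 1)).2.1 (x (k + 1)).2.2 =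
        s' * lf θ t (x k).1 (x k).2.1 (x k).2.2 → |s'| ≤ |s| := by
      intro s s' h5
      have h6 : |s| * vl θ t (x (k + 1)) = |s'| * vl θ t (x k) := by
        unfold vl
        rw [← abs_mul, ← abs_mul, h5]
      by_contra hh
      push Not at hh
      have := abs_nonneg s
      nlinarith
    have cA := coord (x k).1 (x (k + 1)).1 (by
      unfold lf; linear_combination θ * y3 - t * y2)
    have cB := coord (x k).2.1 (x (k + 1)).2.1 (by
      unfold lf; linear_combination (-1 : ℝ) * y3 + t * y1)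
    have cC := coord (x k).2.2 (x (k + 1)).2.2 (by
      unfold lf; linear_combination y2 - θ * y1)
    have h5 : hh (x (k + 1)) ≤ hh (x k) := by
      unfold hh ht
      exact max_le_max cA (max_le_max cB cC)
    have h6 : x (k + 1) ∈ VL (N k) := ⟨(hxV (k + 1)).1, h5.trans (hhN k)⟩
    have h7 := hmin k (N k) (hN (Nat.lt_succ_self k)) _ h6
    linarith
  -- upper bounds for the values
  have hup : ∀ k, H₀ ≤ N (k + 1) → vl θ t (x k) ≤ 2 ^ w * ((N (k + 1) : ℝ) + 1) ^ (-w) := by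
    intro k hk
    have hN1 : 1 ≤ N (k + 1) := by
      have := hN.le_apply (x := k + 1)
      omega
    have hNr : (1 : ℝ) ≤ N (k + 1) := by exact_mod_cast hN1
    obtain ⟨y, h1, h2, h3⟩ := hcon (N (k + 1)) hk
    have h4 : y ∈ VL (N (k + 1) - 1) := by
      refine ⟨h1, h2.trans ?_⟩
      have h5 : ((N (k + 1) - 1 : ℕ) : ℝ) = (N (k + 1) : ℝ) - 1 := by
        rw [Nat.cast_sub hN1]; simp
      rw [h5]; linarith
    have h5 := hmin k (N (k + 1) - 1) (by omega) y h4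
    refine (h5.trans h3).trans ?_
    have h6 : ((N (k + 1) : ℝ) + 1) / 2 ≤ N (k + 1) := by linarith
    have h7 : (N (k + 1) : ℝ) ^ (-w) ≤ (((N (k + 1) : ℝ) + 1) / 2) ^ (-w) :=
      Real.rpow_le_rpow_of_nonpos (by positivity) h6 (by linarith)
    refine h7.trans (le_of_eq ?_)
    rw [Real.div_rpow (by positivity) (by norm_num), Real.rpow_neg (by norm_num : (0 : ℝ) ≤ 2), div_inv_eq_mul,
      mul_comm]
  have hNm : ∀ i j, i ≤ j → (N i : ℝ) ≤ N j := fun i j hij => by exact_mod_cast hN.monotone hij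
  -- infinitely many non-vanishing determinants
  have hinf : ∀ K, ∃ k, K ≤ k ∧ det3 (x k) (x (k + 1)) (x (k + 2)) ≠ 0 := by
    intro K
    by_contra hcon2
    push Not at hcon2
    have h1 := plane x hcr K hcon2
    set n := cr (x K) (x (K + 1)) with hn
    have hn0 : n ≠ 0 := hcr K
    -- `n` is not proportional to `(1, θ, t)`
    have hcross : 0 < max |(n.2.1 : ℝ) - n.1 * θ| |(n.2.2 : ℝ) - n.1 * t| := by
      by_contra hle
      push Not at hle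
      have i1 : |(n.2.1 : ℝ) - n.1 * θ| = 0 :=
        le_antisymm ((le_max_left _ _).trans hle) (abs_nonneg _)
      have i2 : |(n.2.2 : ℝ) - n.1 * t| = 0 :=
        le_antisymm ((le_max_right _ _).trans hle) (abs_nonneg _)
      rw [abs_eq_zero] at i1 i2
      have j1 : lf θ t (-n.2.1) n.1 0 = 0 := by unfold lf; push_cast; linarith
      have j2 := hI _ _ _ j1
      have j3 : n.1 = 0 := j2.2.1
      have j4 : n.2.1 = 0 := by have := j2.1; omega
      rw [j3] at i2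
      have j5 : n.2.2 = 0 := by
        have : (n.2.2 : ℝ) = 0 := by simpa using i2
        exact_mod_cast this
      apply hn0
      ext
      · exact j3
      · exact j4
      · exact j5
    set γ := max |(n.2.1 : ℝ) - n.1 * θ| |(n.2.2 : ℝ) - n.1 * t| with hγ
    -- choose `k` such that `4 N_{k+1} L_k` is small
    obtain ⟨k, hkK, hk⟩ : ∃ k, K ≤ k ∧
        2 * ((N (k + 1) : ℝ) + 1) * (2 ^ w * ((N (k + 1) : ℝ) + 1) ^ (-w)) *
          (|(n.1 : ℝ)| + |(n.2.1 : ℝ)| + |(n.2.2 : ℝ)|) < γ ∧ H₀ ≤ N (k + 1) := by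
      have h2 : Filter.Tendsto (fun X : ℝ => 2 * 2 ^ w * (|(n.1 : ℝ)| + |(n.2.1 : ℝ)| + |(n.2.2 : ℝ)|) *
          X ^ (-(w - 1))) Filter.atTop (nhds (2 * 2 ^ w * (|(n.1 : ℝ)| + |(n.2.1 : ℝ)| + |(n.2.2 : ℝ)|) * 0)) :=
        (tendsto_rpow_neg_atTop (by linarith)).const_mul _
      rw [mul_zero] at h2
      have h3 := (h2.eventually (gt_mem_nhds hcross)).and (Filter.eventually_ge_atTop (max (H₀ + 1) (K : ℝ)))
      obtain ⟨X₂, hX₂⟩ := Filter.eventually_atTop.1 h3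
      obtain ⟨M, hM⟩ := exists_nat_gt X₂
      refine ⟨max K M, le_max_left _ _, ?_⟩
      have h4 : (M : ℝ) ≤ N (max K M + 1) := by
        have := hN.le_apply (x := max K M + 1)
        have h5 := le_max_right K M
        exact_mod_cast (by omega : M ≤ N (max K M + 1))
      obtain ⟨h5, h6⟩ := hX₂ ((N (max K M + 1) : ℝ) + 1) (by linarith)
      refine ⟨?_, by have := (le_max_left _ _).trans h6; linarith⟩
      refine lt_of_eq_of_lt ?_ h5
      have h7 : ((N (max K M + 1) : ℝ) + 1) * ((N (max K M + 1) : ℝ) + 1) ^ (-w) =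
          ((N (max K M + 1) : ℝ) + 1) ^ (-(w - 1)) := by
        have h8 : (0 : ℝ) < (N (max K M + 1) : ℝ) + 1 := by positivity
        rw [show -(w - 1) = 1 + -w by ring, Real.rpow_add h8, Real.rpow_one]
      rw [← h7]; ring
    obtain ⟨hk1, hk2⟩ := hk
    have d1 := h1 k hkK
    have d2 := h1 (k + 1) (by omega)
    -- `z = x k × x (k + 1)` is proportional to `n`
    set u := x k with hu
    set v := x (k + 1) with hv
    set z := cr u v with hz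
    have hz0 : z ≠ 0 := hcr k
    have c1 : n.2.1 * z.2.2 = n.2.2 * z.2.1 := by
      have : n.2.1 * z.2.2 - n.2.2 * z.2.1 = u.1 * dt n v - v.1 * dt n u := by
        rw [hz]; unfold cr dt; ring
      rw [d1, d2] at this
      linarith
    have c2 : n.2.2 * z.1 = n.1 * z.2.2 := by
      have : n.2.2 * z.1 - n.1 * z.2.2 = u.2.1 * dt n v - v.2.1 * dt n u := by
        rw [hz]; unfold cr dt; ring
      rw [d1, d2] at this
      linarith
    have c3 : n.1 * z.2.1 = n.2.1 * z.1 := by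
      have : n.1 * z.2.1 - n.2.1 * z.1 = u.2.2 * dt n v - v.2.2 * dt n u := by
        rw [hz]; unfold cr dt; ring
      rw [d1, d2] at this
      linarith
    have r1 : (n.2.1 : ℝ) * z.2.2 = n.2.2 * z.2.1 := by exact_mod_cast c1
    have r2 : (n.2.2 : ℝ) * z.1 = n.1 * z.2.2 := by exact_mod_cast c2
    have r3 : (n.1 : ℝ) * z.2.1 = n.2.1 * z.1 := by exact_mod_cast c3
    -- bounds for `z`
    have hup' := hup k hk2
    have hB : ∀ (α β ξ ζ : ℝ), |α| ≤ hh u → |β| ≤ hh v → |ξ| ≤ vl θ t u → |ζ| ≤ vl θ t v →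
        |β * ξ - α * ζ| ≤ 2 * ((N (k + 1) : ℝ) + 1) * (2 ^ w * ((N (k + 1) : ℝ) + 1) ^ (-w)) := by
      intro α β ξ ζ h5 h6 h7 h8
      have e1 : hh u ≤ (N (k + 1) : ℝ) + 1 := (hhN k).trans (by have := hNm k (k + 1) (by omega); linarith)
      have e2 : hh v ≤ (N (k + 1) : ℝ) + 1 := hhN (k + 1)
      have e3 : vl θ t v ≤ vl θ t u := (hdec k).le
      have e4 : |β * ξ| ≤ ((N (k + 1) : ℝ) + 1) * (2 ^ w * ((N (k + 1) : ℝ) + 1) ^ (-w)) := by
        rw [abs_mul]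
        exact mul_le_mul (h6.trans e2) (h7.trans hup') (abs_nonneg _) (by positivity)
      have e5 : |α * ζ| ≤ ((N (k + 1) : ℝ) + 1) * (2 ^ w * ((N (k + 1) : ℝ) + 1) ^ (-w)) := by
        rw [abs_mul]
        exact mul_le_mul (h5.trans e1) ((h8.trans e3).trans hup') (abs_nonneg _) (by positivity)
      have := abs_sub (β * ξ) (α * ζ)
      linarith
    set E := 2 * ((N (k + 1) : ℝ) + 1) * (2 ^ w * ((N (k + 1) : ℝ) + 1) ^ (-w)) with hE
    -- `z.2.1 - z.1 θ` and `z.2.2 - z.1 t`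
    have s1 : |(z.2.1 : ℝ) - z.1 * θ| ≤ E := by
      have e1 : (z.2.1 : ℝ) - z.1 * θ = v.2.2 * lf θ t v.1 v.2.1 v.2.2 * 0 +
          ((v.1 : ℝ) * u.2.2 + v.2.1 * θ * u.2.2 - (u.1 : ℝ) * v.2.2 - u.2.1 * θ * v.2.2) := by
        rw [hz]; unfold cr; push_cast; ring
      have e2 : (z.2.1 : ℝ) - z.1 * θ = (u.2.2 : ℝ) * lf θ t v.1 v.2.1 v.2.2 -
          v.2.2 * lf θ t u.1 u.2.1 u.2.2 := by
        rw [e1]; unfold lf; ring
      rw [e2, abs_sub_comm]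
      exact hB _ _ _ _ (le_ht_c _ _ _) (le_ht_c _ _ _) le_rfl le_rfl
    have s2 : |(z.2.2 : ℝ) - z.1 * t| ≤ E := by
      have e2 : (z.2.2 : ℝ) - z.1 * t = (v.2.1 : ℝ) * lf θ t u.1 u.2.1 u.2.2 -
          u.2.1 * lf θ t v.1 v.2.1 v.2.2 := by
        rw [hz]; unfold lf cr; push_cast; ring
      rw [e2]
      exact hB _ _ _ _ (le_ht_b _ _ _) (le_ht_b _ _ _) le_rfl le_rfl
    have hE0 : 0 ≤ E := (abs_nonneg _).trans s1
    -- compare
    have hfinal : ∀ (zi ni : ℝ), 1 ≤ |zi| → |ni| ≤ |(n.1 : ℝ)| + |(n.2.1 : ℝ)| + |(n.2.2 : ℝ)| →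
        zi * ((n.2.1 : ℝ) - n.1 * θ) = ni * ((z.2.1 : ℝ) - z.1 * θ) →
        zi * ((n.2.2 : ℝ) - n.1 * t) = ni * ((z.2.2 : ℝ) - z.1 * t) → False := by
      intro zi ni h5 h6 h7 h8
      have e1 : |(n.2.1 : ℝ) - n.1 * θ| ≤ (|(n.1 : ℝ)| + |(n.2.1 : ℝ)| + |(n.2.2 : ℝ)|) * E := by
        calc |(n.2.1 : ℝ) - n.1 * θ| ≤ |zi| * |(n.2.1 : ℝ) - n.1 * θ| :=
              le_mul_of_one_le_left (abs_nonneg _) h5
          _ = |ni| * |(z.2.1 : ℝ) - z.1 * θ| := by rw [← abs_mul, h7, abs_mul]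
          _ ≤ _ := mul_le_mul h6 s1 (abs_nonneg _) (by positivity)
      have e2 : |(n.2.2 : ℝ) - n.1 * t| ≤ (|(n.1 : ℝ)| + |(n.2.1 : ℝ)| + |(n.2.2 : ℝ)|) * E := by
        calc |(n.2.2 : ℝ) - n.1 * t| ≤ |zi| * |(n.2.2 : ℝ) - n.1 * t| :=
              le_mul_of_one_le_left (abs_nonneg _) h5
          _ = |ni| * |(z.2.2 : ℝ) - z.1 * t| := by rw [← abs_mul, h8, abs_mul]
          _ ≤ _ := mul_le_mul h6 s2 (abs_nonneg _) (by positivity)
      have e3 : γ ≤ (|(n.1 : ℝ)| + |(n.2.1 : ℝ)| + |(n.2.2 : ℝ)|) * E := max_le e1 e2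
      rw [mul_comm] at e3
      linarith
    have n1 := abs_nonneg (n.1 : ℝ)
    have n2 := abs_nonneg (n.2.1 : ℝ)
    have n3 := abs_nonneg (n.2.2 : ℝ)
    by_cases q1 : z.1 = 0
    · by_cases q2 : z.2.1 = 0
      · have q3 : z.2.2 ≠ 0 := by
          intro q3
          apply hz0
          ext
          · exact q1
          · exact q2
          · exact q3
        exact hfinal z.2.2 n.2.2 (one_le_abs q3) (by linarith)
          (by linear_combination r1 + θ * r2) (by linear_combination t * r2)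
      · exact hfinal z.2.1 n.2.1 (one_le_abs q2) (by linarith)
          (by linear_combination (-θ) * r3) (by linear_combination (-1 : ℝ) * r1 - t * r3)
    · exact hfinal z.1 n.1 (one_le_abs q1) (by linarith)
        (by linear_combination (-1 : ℝ) * r3) (by linear_combination r2)
  -- the choice of `η`
  obtain ⟨η, hη0, hη⟩ : ∃ η : ℝ, 0 < η ∧ 1 + η < (w - 1) * (w - 2 - η) := by
    refine ⟨((w - 1) * (w - 2) - 1) / (2 * w), by
      apply div_pos <;> nlinarith, ?_⟩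
    have h2 : w * (((w - 1) * (w - 2) - 1) / (2 * w)) = ((w - 1) * (w - 2) - 1) / 2 := by
      field_simp
    nlinarith
  obtain ⟨κ, hκ, htv⟩ := two_vec hθ t η hη0
  obtain ⟨M, hM⟩ := numeric' (η := η) (by linarith) hη0 hη (6 * 2 ^ w) (2 * 2 ^ w / κ) (by positivity)
    (by positivity)
  -- a large index
  obtain ⟨K, hK⟩ := exists_nat_gt (max H₀ M)
  obtain ⟨k, hkK, hk⟩ := hinf K
  set Q : ℝ := (N (k + 1) : ℝ) + 1 with hQdef
  set R : ℝ := (N (k + 2) : ℝ) + 1 with hRdef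
  have hQ1 : 1 ≤ Q := by rw [hQdef]; have := Nat.cast_nonneg (α := ℝ) (N (k + 1)); linarith
  have hR1 : 1 ≤ R := by rw [hRdef]; have := Nat.cast_nonneg (α := ℝ) (N (k + 2)); linarith
  have hQ0 : 0 < Q := by linarith
  have hR0 : 0 < R := by linarith
  have hQR : Q ≤ R := by rw [hQdef, hRdef]; have := hNm (k + 1) (k + 2) (by omega); linarith
  have hkN1 : (K : ℝ) ≤ N (k + 1) := by
    have := hN.le_apply (x := k + 1)
    exact_mod_cast (by omega : K ≤ N (k + 1))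
  have hkN2 : (K : ℝ) ≤ N (k + 2) := by
    have := hN.le_apply (x := k + 2)
    exact_mod_cast (by omega : K ≤ N (k + 2))
  have hX1 : H₀ ≤ N (k + 1) := by
    have := (le_max_left H₀ M).trans_lt hK
    linarith
  have hX2 : H₀ ≤ N (k + 2) := by
    have := (le_max_left H₀ M).trans_lt hK
    linarith
  have u0 := hup k hX1
  have u1 := hup (k + 1) hX2
  have hQdef' : ((N (k + 1) : ℝ) + 1) = Q := rfl
  rw [hQdef'] at u0
  have hRdef' : ((N (k + 1 + 1) : ℝ) + 1) = R := rfl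
  rw [hRdef'] at u1
  -- the determinant
  have hd := det_bound' θ t (x k) (x (k + 1)) (x (k + 2)) (H₁ := Q) (H₂ := R)
    (e₀ := vl θ t (x k))
    ((hhN k).trans (by have := hNm k (k + 1) (by omega); rw [hQdef]; linarith))
    (hhN (k + 1)) (hhN (k + 2)) hQR le_rfl (hanti (by omega)) (hanti (by omega))
  have hd1 : (1 : ℝ) ≤ |(det3 (x k) (x (k + 1)) (x (k + 2)) : ℝ)| := one_le_abs hk
  have hmain1 : Q ^ (w - 1) ≤ (6 * 2 ^ w) * R := by
    have i1 : 1 ≤ 6 * Q * R * (2 ^ w * Q ^ (-w)) := by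
      calc (1 : ℝ) ≤ 6 * Q * R * vl θ t (x k) := hd1.trans hd
        _ ≤ 6 * Q * R * (2 ^ w * Q ^ (-w)) := by gcongr
    have i2 : Q ^ (w - 1) * (Q * Q ^ (-w)) = 1 := by
      have : Q * Q ^ (-w) = Q ^ (-(w - 1)) := by
        rw [show -(w - 1) = 1 + -w by ring, Real.rpow_add hQ0, Real.rpow_one]
      rw [this, ← Real.rpow_add hQ0]; simp
    calc Q ^ (w - 1) = Q ^ (w - 1) * 1 := by ring
      _ ≤ Q ^ (w - 1) * (6 * Q * R * (2 ^ w * Q ^ (-w))) := by gcongr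
      _ = (6 * 2 ^ w) * R * (Q ^ (w - 1) * (Q * Q ^ (-w))) := by ring
      _ = _ := by rw [i2]; ring
  have hmain2 : R ^ (w - 2 - η) ≤ 2 * 2 ^ w / κ * Q ^ (1 + η) := by
    have hnp : ¬ Prop3 (x (k + 1)).1 (x (k + 1)).2.1 (x (k + 1)).2.2 (x (k + 1 + 1)).1
        (x (k + 1 + 1)).2.1 (x (k + 1 + 1)).2.2 := by
      rintro ⟨h1, h2, h3⟩
      apply hcr (k + 1)
      unfold cr
      ext
      · simp only [Prod.fst_zero]; linarith
      · simp only [Prod.fst_zero, Prod.snd_zero]; linarith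
      · simp only [Prod.snd_zero]; linarith
    have i0 := htv _ _ _ _ _ _ hnp
    have g1 : ht (x (k + 1)).1 (x (k + 1)).2.1 (x (k + 1)).2.2 ≤ Q := hhN (k + 1)
    have g2 : ht (x (k + 1 + 1)).1 (x (k + 1 + 1)).2.1 (x (k + 1 + 1)).2.2 ≤ R := hhN (k + 1 + 1)
    have g1' : 1 ≤ ht (x (k + 1)).1 (x (k + 1)).2.1 (x (k + 1)).2.2 := hh1 (k + 1)
    have g2' : 1 ≤ ht (x (k + 1 + 1)).1 (x (k + 1 + 1)).2.1 (x (k + 1 + 1)).2.2 := hh1 (k + 1 + 1)
    set h₁ := ht (x (k + 1)).1 (x (k + 1)).2.1 (x (k + 1)).2.2 with hh₁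
    set h₂ := ht (x (k + 1 + 1)).1 (x (k + 1 + 1)).2.1 (x (k + 1 + 1)).2.2 with hh₂
    have i1 : (Q * R) ^ (-(1 + η)) ≤ (h₁ * h₂) ^ (-(1 + η)) :=
      Real.rpow_le_rpow_of_nonpos (by positivity) (by gcongr) (by linarith)
    have v1 : |lf θ t (x (k + 1)).1 (x (k + 1)).2.1 (x (k + 1)).2.2| ≤ 2 ^ w * R ^ (-w) := u1
    have v2 : |lf θ t (x (k + 1 + 1)).1 (x (k + 1 + 1)).2.1 (x (k + 1 + 1)).2.2| ≤ 2 ^ w * R ^ (-w) :=
      (hanti (show k + 1 ≤ k + 1 + 1 by omega)).trans u1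
    have i2 : κ * (Q * R) ^ (-(1 + η)) ≤ 2 * R * (2 ^ w * R ^ (-w)) := by
      calc κ * (Q * R) ^ (-(1 + η)) ≤ κ * (h₁ * h₂) ^ (-(1 + η)) := by gcongr
        _ ≤ _ := i0
        _ ≤ R * (2 ^ w * R ^ (-w)) + R * (2 ^ w * R ^ (-w)) := by
            apply add_le_add
            · exact mul_le_mul g2 v1 (abs_nonneg _) (by positivity)
            · exact mul_le_mul (g1.trans hQR) v2 (abs_nonneg _) (by positivity)
        _ = _ := by ring
    have i3 : (Q * R) ^ (-(1 + η)) * ((Q ^ (1 + η)) * (R ^ (w - 1))) = R ^ (w - 2 - η) := by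
      rw [Real.mul_rpow hQ0.le hR0.le]
      have j1 : Q ^ (-(1 + η)) * Q ^ (1 + η) = 1 := by rw [← Real.rpow_add hQ0]; simp
      have j2 : R ^ (-(1 + η)) * R ^ (w - 1) = R ^ (w - 2 - η) := by
        rw [← Real.rpow_add hR0]; congr 1; ring
      calc Q ^ (-(1 + η)) * R ^ (-(1 + η)) * (Q ^ (1 + η) * R ^ (w - 1)) =
          (Q ^ (-(1 + η)) * Q ^ (1 + η)) * (R ^ (-(1 + η)) * R ^ (w - 1)) := by ring
        _ = _ := by rw [j1, j2, one_mul]
    have i4 : 2 * R * (2 ^ w * R ^ (-w)) * ((Q ^ (1 + η)) * (R ^ (w - 1))) =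
        2 * 2 ^ w * Q ^ (1 + η) := by
      have j1 : R * R ^ (-w) * R ^ (w - 1) = 1 := by
        have : R * R ^ (-w) = R ^ (-(w - 1)) := by
          rw [show -(w - 1) = 1 + -w by ring, Real.rpow_add hR0, Real.rpow_one]
        rw [this, ← Real.rpow_add hR0]; simp
      calc 2 * R * (2 ^ w * R ^ (-w)) * ((Q ^ (1 + η)) * (R ^ (w - 1))) =
          2 * 2 ^ w * Q ^ (1 + η) * (R * R ^ (-w) * R ^ (w - 1)) := by ring
        _ = _ := by rw [j1, mul_one]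
    have i5 : (0 : ℝ) < (Q ^ (1 + η)) * (R ^ (w - 1)) := by positivity
    have i6 := mul_le_mul_of_nonneg_right i2 i5.le
    rw [mul_assoc κ, i3, i4] at i6
    rw [div_mul_eq_mul_div, le_div_iff₀ hκ]
    linarith
  have hfin := hM Q R hQ1 hR1 hmain1 hmain2
  have : M < Q := by
    have := (le_max_right H₀ M).trans_lt hK
    rw [hQdef]; linarith
  linarith

end Pool.Agent.D0H49.LI
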