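import Pool.Agent.D0H49.LI.Base

/-!
# Minimal points
-/

set_option autoImplicit false

namespace Pool.Agent.D0H49.LI

/-- the sequence of minimal points of an increasing family of finite sets -/
theorem exists_minimal {α : Type} (V : ℕ → Set α) (val : α → ℝ) (hmono : Monotone V)
    (hfin : ∀ n, (V n).Finite) (hne : (V 0).Nonempty) (hpos : ∀ n, ∀ x ∈ V n, 0 < val x)
    (hsmall : ∀ δ : ℝ, 0 < δ → ∃ n, ∃ x ∈ V n, val x < δ) :
    ∃ (N : ℕ → ℕ) (x : ℕ → α), StrictMono N ∧ (∀ k, x k ∈ V (N k)) ∧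
      (∀ k, val (x (k + 1)) < val (x k)) ∧
      (∀ k j, j < N (k + 1) → ∀ y ∈ V j, val (x k) ≤ val y) := by
  classical
  have hne' : ∀ n, (V n).Nonempty := fun n => hne.mono (hmono (Nat.zero_le n))
  -- minimisers
  have hmin : ∀ n, ∃ p ∈ V n, ∀ y ∈ V n, val p ≤ val y := fun n => by
    obtain ⟨p, hp, h⟩ := Set.exists_min_image (V n) val (hfin n) (hne' n)
    exact ⟨p, hp, h⟩
  choose pt hpt hptmin using hmin
  set m : ℕ → ℝ := fun n => val (pt n) with hm
  have hanti : ∀ i j, i ≤ j → m j ≤ m i := fun i j hij => hptmin j _ (hmono hij (hpt i))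
  have hnext : ∀ n, ∃ n', n < n' ∧ m n' < m n := by
    intro n
    obtain ⟨n', y, hy, hlt⟩ := hsmall (m n) (hpos n _ (hpt n))
    have h1 : m n' < m n := (hptmin n' y hy).trans_lt hlt
    refine ⟨n', ?_, h1⟩
    by_contra hh
    push Not at hh
    exact absurd (hanti n' n hh) (not_le.2 h1)
  set nxt : ℕ → ℕ := fun n => Nat.find (hnext n) with hnxt
  have hnxt1 : ∀ n, n < nxt n ∧ m (nxt n) < m n := fun n => Nat.find_spec (hnext n)
  have hnxt2 : ∀ n j, j < nxt n → m n ≤ m j := by
    intro n j hj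
    rcases Nat.lt_or_ge n j with h | h
    · have h1 := Nat.find_min (hnext n) hj
      by_contra h2
      push Not at h2
      exact h1 ⟨h, h2⟩
    · exact hanti j n h
  set N : ℕ → ℕ := fun k => nxt^[k] 0 with hN
  have hNs : ∀ k, N (k + 1) = nxt (N k) := fun k => by
    rw [hN]; exact Function.iterate_succ_apply' nxt k 0
  refine ⟨N, fun k => pt (N k), strictMono_nat_of_lt_succ fun k => ?_, fun k => hpt _, fun k => ?_,
    fun k j hj y hy => ?_⟩
  · rw [hNs]; exact (hnxt1 _).1
  · show m (N (k + 1)) < m (N k)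
    rw [hNs]; exact (hnxt1 _).2
  · rw [hNs] at hj
    exact (hnxt2 _ _ hj).trans (hptmin j y hy)

/-- the determinant of three integer vectors -/
def det3 (u v w : ℤ × ℤ × ℤ) : ℤ :=
  u.1 * (v.2.1 * w.2.2 - v.2.2 * w.2.1) - v.1 * (u.2.1 * w.2.2 - u.2.2 * w.2.1) +
    w.1 * (u.2.1 * v.2.2 - u.2.2 * v.2.1)

/-- the vector product -/
def cr (u v : ℤ × ℤ × ℤ) : ℤ × ℤ × ℤ :=
  (u.2.1 * v.2.2 - u.2.2 * v.2.1, u.2.2 * v.1 - u.1 * v.2.2, u.1 * v.2.1 - u.2.1 * v.1)

/-- the scalar product -/
def dt (u v : ℤ × ℤ × ℤ) : ℤ := u.1 * v.1 + u.2.1 * v.2.1 + u.2.2 * v.2.2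

lemma dt_cr (u v w : ℤ × ℤ × ℤ) : dt (cr u v) w = det3 u v w := by
  unfold dt cr det3; ring

/-- If all the determinants of consecutive vectors vanish from some index on, and consecutive vectors
are not proportional, then the vectors lie in one plane. -/
theorem plane (x : ℕ → ℤ × ℤ × ℤ) (hcr : ∀ k, cr (x k) (x (k + 1)) ≠ 0) (K : ℕ)
    (hdet : ∀ k, K ≤ k → det3 (x k) (x (k + 1)) (x (k + 2)) = 0) :
    ∀ k, K ≤ k → dt (cr (x K) (x (K + 1))) (x k) = 0 := by
  have key : ∀ j, dt (cr (x K) (x (K + 1))) (x (K + j)) = 0 ∧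
      dt (cr (x K) (x (K + 1))) (x (K + j + 1)) = 0 := by
    intro j
    induction j with
    | zero =>
      constructor
      · simp only [Nat.add_zero]; unfold dt cr; ring
      · simp only [Nat.add_zero]; unfold dt cr; ring
    | succ j ih =>
      obtain ⟨h1, h2⟩ := ih
      refine ⟨h2, ?_⟩
      have h3 := hdet (K + j) (by omega)
      rw [← dt_cr] at h3
      have h4 := hcr (K + j)
      set n := cr (x K) (x (K + 1)) with hn
      set u := x (K + j) with hu
      set v := x (K + j + 1) with hv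
      have e0 : K + (j + 1) + 1 = K + j + 2 := by omega
      rw [e0]
      set z := x (K + j + 2) with hz
      set q := cr u v with hq
      -- `n × q = 0`
      have c1 : n.2.1 * q.2.2 = n.2.2 * q.2.1 := by
        have : n.2.1 * q.2.2 - n.2.2 * q.2.1 = u.1 * dt n v - v.1 * dt n u := by
          rw [hq]; unfold cr dt; ring
        rw [h1, h2] at this
        linarith
      have c2 : n.2.2 * q.1 = n.1 * q.2.2 := by
        have : n.2.2 * q.1 - n.1 * q.2.2 = u.2.1 * dt n v - v.2.1 * dt n u := by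
          rw [hq]; unfold cr dt; ring
        rw [h1, h2] at this
        linarith
      have c3 : n.1 * q.2.1 = n.2.1 * q.1 := by
        have : n.1 * q.2.1 - n.2.1 * q.1 = u.2.2 * dt n v - v.2.2 * dt n u := by
          rw [hq]; unfold cr dt; ring
        rw [h1, h2] at this
        linarith
      have hd : q.1 * z.1 + q.2.1 * z.2.1 + q.2.2 * z.2.2 = 0 := h3
      show n.1 * z.1 + n.2.1 * z.2.1 + n.2.2 * z.2.2 = 0
      by_cases q1 : q.1 = 0
      · by_cases q2 : q.2.1 = 0
        · have q3 : q.2.2 ≠ 0 := by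
            intro q3
            apply h4
            ext
            · exact q1
            · exact q2
            · exact q3
          apply mul_left_cancel₀ q3
          rw [mul_zero]
          linear_combination n.2.2 * hd - z.1 * c2 + z.2.1 * c1
        · apply mul_left_cancel₀ q2
          rw [mul_zero]
          linear_combination n.2.1 * hd + z.1 * c3 - z.2.2 * c1
      · apply mul_left_cancel₀ q1
        rw [mul_zero]
        linear_combination n.1 * hd - z.2.1 * c3 + z.2.2 * c2
  intro k hk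
  obtain ⟨j, rfl⟩ := Nat.exists_eq_add_of_le hk
  exact (key j).1

end Pool.Agent.D0H49.LI
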